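import Pool.Agent.L0h29.CS.Sqz
import Pool.Agent.N550.KH.Null
import Pool.Agent.N550.SH.Two

/-!
# Project CS: closing a standard end with a point
-/

set_option autoImplicit false
set_option linter.unusedSectionVars false

open Set Filter Topology Metric Function MeasureTheory
open scoped Manifold ContDiff

noncomputable section

namespace Pool.Agent.L0h29.CS.Close

open Pool.Agent.Y522 Pool.Agent.N550.KH

section inversion

variable {n : ℕ}

/-- inversion in the unit sphere -/
def inv0 (z : E n) : E n := (‖z‖ ^ 2)⁻¹ • z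

theorem norm_inv0 (z : E n) : ‖inv0 z‖ = ‖z‖⁻¹ := by
  rw [inv0, norm_smul, norm_inv, norm_pow, norm_norm]
  by_cases hz : ‖z‖ = 0
  · rw [hz]; simp
  · field_simp

theorem inv0_inv0 (z : E n) : inv0 (inv0 z) = z := by
  by_cases hz : z = 0
  · rw [hz]; simp [inv0]
  · have h1 : ‖z‖ ≠ 0 := norm_ne_zero_iff.2 hz
    have h2 : inv0 (inv0 z) = (‖inv0 z‖ ^ 2)⁻¹ • inv0 z := rfl
    rw [h2, norm_inv0, inv0, smul_smul]
    have h3 : ((‖z‖⁻¹ ^ 2)⁻¹ * (‖z‖ ^ 2)⁻¹ : ℝ) = 1 := by
      field_simp
    rw [h3, one_smul]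

theorem inv0_eq_zero {z : E n} : inv0 z = 0 ↔ z = 0 := by
  constructor
  · intro h
    rw [← inv0_inv0 z, h]
    simp [inv0]
  · rintro rfl
    simp [inv0]

theorem inv0_smooth {z : E n} (hz : z ≠ 0) : ContDiffAt ℝ ∞ inv0 z := by
  have h1 : ContDiffAt ℝ ∞ (fun z : E n => (‖z‖ ^ 2)⁻¹) z :=
    ContDiffAt.inv (contDiff_norm_sq ℝ).contDiffAt (pow_ne_zero 2 (norm_ne_zero_iff.2 hz))
  exact h1.smul contDiffAt_id

theorem inv0_ld {z : E n} (hz : z ≠ 0) : LD n inv0 z := by
  refine Sqz.ld_of_left_inverse (g := inv0) ?_ ?_ (Eventually.of_forall inv0_inv0)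
  · filter_upwards [isOpen_ne.mem_nhds hz] with y hy
    exact inv0_smooth hy
  · exact (inv0_smooth (fun h => hz (inv0_eq_zero.1 h))).differentiableAt (by simp)

theorem inv0_norm_lt {z : E n} (hz : 1 / 2 < ‖z‖) : ‖inv0 z‖ < 2 := by
  rw [norm_inv0]
  have h1 : ‖z‖⁻¹ < (1 / 2)⁻¹ := inv_strictAnti₀ (by norm_num) hz
  norm_num at h1
  exact h1

theorem inv0_lt_norm {w : E n} (hw : w ≠ 0) (h2 : ‖w‖ < 2) : 1 / 2 < ‖inv0 w‖ := by
  rw [norm_inv0]
  have h1 : (2 : ℝ)⁻¹ < ‖w‖⁻¹ := inv_strictAnti₀ (norm_pos_iff.2 hw) h2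
  norm_num at h1 ⊢
  exact h1

end inversion

section

variable {n : ℕ} {X : Type} [TopologicalSpace X] [ChartedSpace (E n) X]

/-- a standard end of `X` -/
structure EndData (κ : X → E n) (k : E n → X) : Prop where
  cont : Continuous κ
  kl : ∀ z, 1 / 2 < ‖z‖ → κ (k z) = z
  kr : ∀ x, 1 / 2 < ‖κ x‖ → k (κ x) = x
  ld : ∀ x, 1 / 2 < ‖κ x‖ → LD n κ x
  cpt : ∀ R : ℝ, IsCompact {x | ‖κ x‖ ≤ R}

variable {κ : X → E n} {k : E n → X}

theorem EndData.kld (h : EndData κ k) {z : E n} (hz : 1 / 2 < ‖z‖) : LD n k z := by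
  have ho : IsOpen {x | 1 / 2 < ‖κ x‖} := isOpen_lt continuous_const h.cont.norm
  have h1 := LD.inverse (n := n) (k := κ) (g := k) ho (fun x hx => h.ld x hx) (fun x hx => h.kr x hx)
    (x := k z) (by show 1 / 2 < ‖κ (k z)‖; rw [h.kl z hz]; exact hz)
  rw [h.kl z hz] at h1
  exact h1

/-- the chart at infinity and its inverse -/
def pf (κ : X → E n) (p : OnePoint X) : E n := p.elim 0 fun x => inv0 (κ x)

open Classical in
def qf (k : E n → X) (w : E n) : OnePoint X := if w = 0 then OnePoint.infty else ((k (inv0 w) : X) : OnePoint X)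

theorem qf_zero (k : E n → X) : qf k (0 : E n) = OnePoint.infty := if_pos rfl

theorem qf_ne (k : E n → X) {w : E n} (hw : w ≠ 0) : qf k w = ((k (inv0 w) : X) : OnePoint X) :=
  if_neg hw

theorem mem_src {p : OnePoint X} :
    p ∈ (((↑) : X → OnePoint X) '' {x | ‖κ x‖ ≤ 1 / 2})ᶜ ↔
      p = OnePoint.infty ∨ ∃ x : X, p = x ∧ 1 / 2 < ‖κ x‖ := by
  induction p using OnePoint.rec with
  | infty => simp
  | coe x =>
    constructor
    · intro hx
      right
      refine ⟨x, rfl, ?_⟩
      by_contra hcon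
      exact hx ⟨x, not_lt.1 hcon, rfl⟩
    · rintro (hx | ⟨y, hy, hy2⟩) ⟨w, hw, hwx⟩
      · exact OnePoint.coe_ne_infty _ hx
      · have h1 : w = x := OnePoint.coe_injective hwx
        have h2 : x = y := OnePoint.coe_injective hy
        rw [h1, h2] at hw
        exact absurd hy2 (not_lt.2 hw)

theorem tendsto_inv0 : Tendsto (inv0 : E n → E n) (cocompact (E n)) (𝓝 0) := by
  rw [tendsto_zero_iff_norm_tendsto_zero]
  have h1 : (fun z : E n => ‖inv0 z‖) = fun z => ‖z‖⁻¹ := funext norm_inv0
  rw [h1]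
  exact tendsto_inv_atTop_zero.comp (tendsto_norm_cocompact_atTop)

/-- the chart at infinity -/
def cinf [T2Space X] (h : EndData κ k) : OpenPartialHomeomorph (OnePoint X) (E n) where
  toFun := pf κ
  invFun := qf k
  source := (((↑) : X → OnePoint X) '' {x | ‖κ x‖ ≤ 1 / 2})ᶜ
  target := ball 0 2
  map_source' := by
    intro p hp
    rw [mem_src] at hp
    rw [mem_ball_zero_iff]
    rcases hp with rfl | ⟨x, rfl, hx⟩
    · show ‖(0 : E n)‖ < 2
      rw [norm_zero]; norm_num
    · exact inv0_norm_lt hx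
  map_target' := by
    intro w hw
    rw [mem_ball_zero_iff] at hw
    rw [mem_src]
    by_cases h0 : w = 0
    · left; rw [h0, qf_zero]
    · right
      refine ⟨_, qf_ne k h0, ?_⟩
      rw [h.kl _ (inv0_lt_norm h0 hw)]
      exact inv0_lt_norm h0 hw
  left_inv' := by
    intro p hp
    rw [mem_src] at hp
    rcases hp with rfl | ⟨x, rfl, hx⟩
    · exact qf_zero k
    · have h0 : inv0 (κ x) ≠ 0 := by
        intro hcon
        rw [inv0_eq_zero] at hcon
        rw [hcon, norm_zero] at hx
        norm_num at hx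
      show qf k (inv0 (κ x)) = x
      rw [qf_ne k h0, inv0_inv0, h.kr x hx]
  right_inv' := by
    intro w hw
    rw [mem_ball_zero_iff] at hw
    by_cases h0 : w = 0
    · rw [h0, qf_zero]; rfl
    · rw [qf_ne k h0]
      show inv0 (κ (k (inv0 w))) = w
      rw [h.kl _ (inv0_lt_norm h0 hw), inv0_inv0]
  open_source := by
    rw [OnePoint.isOpen_compl_image_coe]
    exact ⟨(h.cpt (1 / 2)).isClosed, h.cpt (1 / 2)⟩
  open_target := isOpen_ball
  continuousOn_toFun := by
    intro p hp
    apply ContinuousAt.continuousWithinAt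
    rw [mem_src] at hp
    rcases hp with rfl | ⟨x, rfl, hx⟩
    · rw [OnePoint.continuousAt_infty']
      show Tendsto (fun x : X => inv0 (κ x)) (coclosedCompact X) (𝓝 0)
      refine tendsto_inv0.comp ?_
      rw [coclosedCompact_eq_cocompact]
      rw [← cobounded_eq_cocompact, ← comap_norm_atTop, tendsto_comap_iff]
      rw [Filter.tendsto_atTop]
      intro R
      have h2 : {x | ‖κ x‖ ≤ R}ᶜ ∈ cocompact X := (h.cpt R).compl_mem_cocompact
      filter_upwards [h2] with y hy
      have hy' : ¬ ‖κ y‖ ≤ R := hy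
      exact (not_le.1 hy').le
    · rw [OnePoint.continuousAt_coe]
      show ContinuousAt (fun x : X => inv0 (κ x)) x
      have h0 : κ x ≠ 0 := by
        intro hcon
        rw [hcon, norm_zero] at hx
        norm_num at hx
      exact ContinuousAt.comp (g := inv0) (inv0_smooth h0).continuousAt h.cont.continuousAt
  continuousOn_invFun := by
    intro w hw
    rw [mem_ball_zero_iff] at hw
    apply ContinuousAt.continuousWithinAt
    by_cases h0 : w = 0
    · rw [h0, ContinuousAt, qf_zero]
      rw [OnePoint.hasBasis_nhds_infty.tendsto_right_iff]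
      rintro C ⟨-, hC⟩
      obtain ⟨R, hR⟩ := (hC.image h.cont).isBounded.exists_norm_le
      have h1 : ∀ᶠ w : E n in 𝓝 0, ‖w‖ < min 2 (max R 1)⁻¹ := by
        have : (ball (0 : E n) (min 2 (max R 1)⁻¹)) ∈ 𝓝 (0 : E n) :=
          ball_mem_nhds _ (lt_min (by norm_num) (inv_pos.2 (lt_max_of_lt_right one_pos)))
        filter_upwards [this] with w hw
        exact mem_ball_zero_iff.1 hw
      filter_upwards [h1] with w hw
      rw [lt_min_iff] at hw
      by_cases hw0 : w = 0
      · rw [hw0, qf_zero]; exact Or.inr rfl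
      · rw [qf_ne k hw0]
        left
        refine ⟨_, fun hcon => ?_, rfl⟩
        have h2 := hR _ ⟨_, hcon, rfl⟩
        rw [h.kl _ (inv0_lt_norm hw0 hw.1), norm_inv0] at h2
        have h3 : ((max R 1)⁻¹)⁻¹ < ‖w‖⁻¹ := inv_strictAnti₀ (norm_pos_iff.2 hw0) hw.2
        rw [inv_inv] at h3
        have h4 : R ≤ max R 1 := le_max_left _ _
        linarith
    · have h1 : ContinuousAt (fun w => ((k (inv0 w) : X) : OnePoint X)) w := by
        refine ContinuousAt.comp (g := ((↑) : X → OnePoint X)) (f := fun w => k (inv0 w))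
          OnePoint.continuous_coe.continuousAt ?_
        exact ContinuousAt.comp (g := k) (f := inv0) (h.kld (inv0_lt_norm h0 hw)).continuousAt
          (inv0_smooth h0).continuousAt
      refine h1.congr ?_
      filter_upwards [isOpen_ne.mem_nhds h0] with y hy
      exact (qf_ne k hy).symm

/-- the charts at the points of `X` -/
def ccoe (x : X) : OpenPartialHomeomorph (OnePoint X) (E n) :=
  haveI : Nonempty X := ⟨x⟩
  ((OnePoint.isOpenEmbedding_coe (X := X)).toOpenPartialHomeomorph _).symm.trans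
    (chartAt (E n) x)

theorem ccoe_apply (x y : X) : ccoe x (y : OnePoint X) = chartAt (E n) x y := by
  have : Nonempty X := ⟨x⟩
  show chartAt (E n) x (((OnePoint.isOpenEmbedding_coe (X := X)).toOpenPartialHomeomorph _).symm y)
    = _
  rw [Topology.IsOpenEmbedding.toOpenPartialHomeomorph_left_inv]

theorem ccoe_mem {x y : X} : (y : OnePoint X) ∈ (ccoe x : OpenPartialHomeomorph (OnePoint X) (E n)).source ↔
    y ∈ (chartAt (E n) x).source := by
  have : Nonempty X := ⟨x⟩
  have h1 : (ccoe x : OpenPartialHomeomorph (OnePoint X) (E n)).source = range ((↑) : X → OnePoint X) ∩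
    ((OnePoint.isOpenEmbedding_coe (X := X)).toOpenPartialHomeomorph _).symm ⁻¹'
      (chartAt (E n) x).source := by
    rw [ccoe, OpenPartialHomeomorph.trans_source, OpenPartialHomeomorph.symm_source,
      Topology.IsOpenEmbedding.toOpenPartialHomeomorph_target]
  rw [h1]
  constructor
  · rintro ⟨-, h⟩
    rw [mem_preimage, Topology.IsOpenEmbedding.toOpenPartialHomeomorph_left_inv] at h
    exact h
  · intro h
    refine ⟨⟨y, rfl⟩, ?_⟩
    rw [mem_preimage, Topology.IsOpenEmbedding.toOpenPartialHomeomorph_left_inv]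
    exact h

theorem ccoe_infty {x : X} : (OnePoint.infty : OnePoint X) ∉ (ccoe x : OpenPartialHomeomorph (OnePoint X) (E n)).source := by
  have : Nonempty X := ⟨x⟩
  intro h
  rw [ccoe, OpenPartialHomeomorph.trans_source, OpenPartialHomeomorph.symm_source,
      Topology.IsOpenEmbedding.toOpenPartialHomeomorph_target] at h
  exact OnePoint.infty_notMem_range_coe h.1

/-- the charted space -/
@[reducible] def cs [T2Space X] (h : EndData κ k) : ChartedSpace (E n) (OnePoint X) where
  atlas := {cinf h} ∪ range ccoe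
  chartAt p := p.elim (cinf h) ccoe
  mem_chart_source := by
    intro p
    induction p using OnePoint.rec with
    | infty =>
      show OnePoint.infty ∈ (((↑) : X → OnePoint X) '' {x | ‖κ x‖ ≤ 1 / 2})ᶜ
      rw [mem_src]; exact Or.inl rfl
    | coe x =>
      show (x : OnePoint X) ∈ (ccoe x : OpenPartialHomeomorph (OnePoint X) (E n)).source
      rw [ccoe_mem]
      exact mem_chart_source _ x
  chart_mem_atlas := by
    intro p
    induction p using OnePoint.rec with
    | infty => exact Or.inl rfl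
    | coe x => exact Or.inr ⟨x, rfl⟩

/-- the charts are local diffeomorphisms on `X` -/
theorem ld_atlas [T2Space X] [IsManifold (𝓡 n) ∞ X] (h : EndData κ k)
    {e : OpenPartialHomeomorph (OnePoint X) (E n)}
    (he : e ∈ ({cinf h} ∪ range ccoe : Set (OpenPartialHomeomorph (OnePoint X) (E n)))) {x : X}
    (hx : (x : OnePoint X) ∈ e.source) : LD n (fun y : X => e (y : OnePoint X)) x := by
  rcases he with he | ⟨x', rfl⟩
  · rw [mem_singleton_iff] at he
    subst he
    have h1 : 1 / 2 < ‖κ x‖ := by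
      rcases mem_src.1 hx with h1 | ⟨y, hy, hy2⟩
      · exact absurd h1 (OnePoint.coe_ne_infty _)
      · rw [OnePoint.coe_injective hy]; exact hy2
    have h0 : κ x ≠ 0 := by
      intro hcon
      rw [hcon, norm_zero] at h1
      norm_num at h1
    exact LD.comp_fun (g := inv0) (f := κ) (inv0_ld h0) (h.ld x h1)
  · rw [ccoe_mem] at hx
    refine LD.congr (Pool.Agent.N550.SH.ld_chart' x' x hx) (Eventually.of_forall fun y => ?_)
    exact ccoe_apply x' y

/-- the inverse of a chart, locally -/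
theorem symm_eq {e : OpenPartialHomeomorph (OnePoint X) (E n)} {x : X}
    (hx : (x : OnePoint X) ∈ e.source) (hld : LD n (fun y : X => e (y : OnePoint X)) x) :
    ∃ g : E n → X, LD n g (e (x : OnePoint X)) ∧ g (e (x : OnePoint X)) = x ∧
      ∀ᶠ z in 𝓝 (e (x : OnePoint X)), e.symm z = ((g z : X) : OnePoint X) := by
  obtain ⟨Φ, hxΦ, heq⟩ := hld
  have h1 : Φ x = e (x : OnePoint X) := (heq hxΦ).symm
  have h2 : e (x : OnePoint X) ∈ Φ.target := by
    rw [← h1]; exact Φ.map_source hxΦ
  have h3 : Φ.symm (e (x : OnePoint X)) = x := by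
    rw [← h1]; exact Φ.left_inv hxΦ
  have h4 : LD n Φ.symm (e (x : OnePoint X)) := ⟨Φ.symm, h2, fun _ _ => rfl⟩
  refine ⟨Φ.symm, h4, h3, ?_⟩
  have h5 : ∀ᶠ z in 𝓝 (e (x : OnePoint X)), ((Φ.symm z : X) : OnePoint X) ∈ e.source := by
    have h6 : ContinuousAt (fun z => ((Φ.symm z : X) : OnePoint X)) (e (x : OnePoint X)) :=
      ContinuousAt.comp (g := ((↑) : X → OnePoint X)) OnePoint.continuous_coe.continuousAt
        h4.continuousAt
    apply h6
    show e.source ∈ 𝓝 ((Φ.symm (e (x : OnePoint X)) : X) : OnePoint X)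
    rw [h3]
    exact e.open_source.mem_nhds hx
  filter_upwards [h5, Φ.open_target.mem_nhds h2] with z hz1 hz2
  have h7 : e ((Φ.symm z : X) : OnePoint X) = z := by
    have h8 := heq (Φ.map_target hz2)
    show (fun y : X => e (y : OnePoint X)) (Φ.symm z) = z
    exact h8.trans (Φ.right_inv hz2)
  rw [← e.left_inv hz1, h7]

theorem isManifold [T2Space X] [IsManifold (𝓡 n) ∞ X] (h : EndData κ k) :
    @IsManifold ℝ _ (E n) _ _ (E n) _ (𝓡 n) ∞ (OnePoint X) _ (cs h) := by
  let _ := cs h
  refine isManifold_of_contDiffOn (𝓡 n) ∞ (OnePoint X) ?_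
  intro e e' he he'
  have key : ∀ z ∈ (e.symm ≫ₕ e').source, ContDiffAt ℝ ∞ (e.symm ≫ₕ e') z := by
    intro z hz
    rw [OpenPartialHomeomorph.trans_source, OpenPartialHomeomorph.symm_source] at hz
    obtain ⟨hz1, hz2⟩ := hz
    rw [mem_preimage] at hz2
    have hes : e.symm z ∈ e.source := e.map_target hz1
    have hez : e (e.symm z) = z := e.right_inv hz1
    generalize hp : e.symm z = p at hes hz2 hez
    induction p using OnePoint.rec with
    | infty =>
      have h1 : e = cinf h := by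
        rcases he with he | ⟨x', rfl⟩
        · exact he
        · exact absurd hes ccoe_infty
      have h2 : e' = cinf h := by
        rcases he' with he' | ⟨x', rfl⟩
        · exact he'
        · exact absurd hz2 ccoe_infty
      rw [h1, h2]
      rw [h1] at hz1
      have h3 : ((cinf h).symm ≫ₕ (cinf h) : E n → E n) =ᶠ[𝓝 z] fun w => w := by
        filter_upwards [(cinf h).open_target.mem_nhds hz1] with w hw
        exact (cinf h).right_inv hw
      exact ContDiffAt.congr_of_eventuallyEq contDiffAt_id h3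
    | coe x =>
      obtain ⟨g, hg1, hg2, hg3⟩ := symm_eq hes (ld_atlas h he hes)
      have h1 := ld_atlas h he' hz2
      rw [← hez]
      have h2 : LD n (fun w => e' ((g w : X) : OnePoint X)) (e (x : OnePoint X)) := by
        refine LD.comp_fun (g := fun y : X => e' (y : OnePoint X)) (f := g) ?_ hg1
        rw [hg2]; exact h1
      have h3 : ((e.symm ≫ₕ e') : E n → E n) =ᶠ[𝓝 (e (x : OnePoint X))]
          (fun w => e' ((g w : X) : OnePoint X)) := by
        filter_upwards [hg3] with w hw
        show e' (e.symm w) = _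
        rw [hw]
      exact ContDiffAt.congr_of_eventuallyEq h2.contDiffAt h3
  intro z hz
  simp only [mfld_simps, mem_inter_iff, mem_preimage] at hz
  have h1 : z ∈ (e.symm ≫ₕ e').source := by
    rw [OpenPartialHomeomorph.trans_source, OpenPartialHomeomorph.symm_source]
    exact hz
  exact (key z h1).contDiffWithinAt

theorem ld_coe [T2Space X] [IsManifold (𝓡 n) ∞ X] (h : EndData κ k) (x : X) :
    @IsLocalDiffeomorphAt ℝ _ (E n) _ _ (E n) _ _ (E n) _ (E n) _ (𝓡 n) (𝓡 n) X _ _ (OnePoint X) _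
      (cs h) ∞ ((↑) : X → OnePoint X) x := by
  let _ := cs h
  have := isManifold h
  have h1 : (x : OnePoint X) ∈ (chartAt (E n) (x : OnePoint X)).source := mem_chart_source _ _
  have h2 : chartAt (E n) (x : OnePoint X) = (ccoe x : OpenPartialHomeomorph (OnePoint X) (E n)) :=
    rfl
  have h3 : LD n (chartAt (E n) (x : OnePoint X)).symm (chartAt (E n) x x) := by
    refine Pool.Agent.N550.SH.ld_chart_symm' (x : OnePoint X) _ ?_
    have h4 := (chartAt (E n) (x : OnePoint X)).map_source h1
    rw [h2, ccoe_apply] at h4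
    rw [h2]; exact h4
  have h5 : LD n (fun y : X => (chartAt (E n) (x : OnePoint X)).symm (chartAt (E n) x y)) x :=
    LD.comp_fun (g := (chartAt (E n) (x : OnePoint X)).symm) (f := chartAt (E n) x) h3
      (Pool.Agent.N550.SH.ld_chart' x x (mem_chart_source _ _))
  refine LD.congr h5 ?_
  filter_upwards [(chartAt (E n) x).open_source.mem_nhds (mem_chart_source _ _)] with y hy
  have h6 : (y : OnePoint X) ∈ (chartAt (E n) (x : OnePoint X)).source := by
    rw [h2, ccoe_mem]; exact hy
  rw [← (chartAt (E n) (x : OnePoint X)).left_inv h6, h2, ccoe_apply]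

theorem ld_qf [T2Space X] [IsManifold (𝓡 n) ∞ X] (h : EndData κ k) {w : E n} (hw : ‖w‖ < 2) :
    @IsLocalDiffeomorphAt ℝ _ (E n) _ _ (E n) _ _ (E n) _ (E n) _ (𝓡 n) (𝓡 n) (E n) _ _ (OnePoint X) _
      (cs h) ∞ (qf k) w := by
  let _ := cs h
  have := isManifold h
  exact Pool.Agent.N550.SH.ld_chart_symm' (OnePoint.infty : OnePoint X) w
    (mem_ball_zero_iff.2 hw)

end

end Pool.Agent.L0h29.CS.Close
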