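import Pool.Agent.N550.KH.Reg
import Pool.Agent.N9.SH1

/-!
# Project CS: regular values of maps to `E k`, with an exceptional set with null image
-/

set_option autoImplicit false

open Set Filter Topology Metric Function MeasureTheory
open scoped Manifold ContDiff

noncomputable section

namespace Pool.Agent.L0h29.CS.Reg2

open Pool.Agent.Y522 Pool.Agent.N550.KH Pool.Agent.N550.KH.Reg

/-- regular level sets are manifolds -/
theorem slice_at {n : ℕ} {X : Type} [TopologicalSpace X]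
    [ChartedSpace (E (n + 1)) X] [IsManifold (𝓡 (n + 1)) ∞ X] (φ : X → ℝ)
    (hφ : ContMDiff (𝓡 (n + 1)) 𝓘(ℝ, ℝ) ∞ φ) (c : ℝ)
    (hreg : ∀ x, φ x = c → mfderiv (𝓡 (n + 1)) 𝓘(ℝ, ℝ) φ x ≠ 0) :
    ∃ (_ : ChartedSpace (E n) ({x | φ x = c} : Set X)),
      IsManifold (𝓡 n) ∞ ({x | φ x = c} : Set X) ∧
      ContMDiff (𝓡 n) (𝓡 (n + 1)) ∞ (Subtype.val : ({x | φ x = c} : Set X) → X) ∧
      ∀ s : ({x | φ x = c} : Set X), (∃ v, dm (n + 1) φ s v ≠ 0) ∧
        ∃ V : E n →L[ℝ] E (n + 1), (∀ u, dm (n + 1) φ s (V u) = 0) ∧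
          ∀ ψ : X → ℝ, MDifferentiableAt (𝓡 (n + 1)) 𝓘(ℝ, ℝ) ψ (s : X) →
            ∀ u, dm n (fun s : ({x | φ x = c} : Set X) => ψ s) s u =
              dm (n + 1) ψ s (V u) := by
  have hflat : LocFlat n {x | φ x = c} := by
    intro x hx
    have hx' : φ x = c := hx
    obtain ⟨e, he, -, he2⟩ := Pool.Agent.Y641.SH.stAdapt n X φ x
      (Eventually.of_forall fun y => hφ y) (hreg x hx')
    refine ⟨e, he, ?_⟩
    filter_upwards [he2] with y hy
    rw [hy, hx', sub_eq_zero]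
  obtain ⟨cs, hmf, hv1, hv2⟩ := Pool.Agent.Y641.SH.stLevel n X {x | φ x = c} hflat
  refine ⟨cs, hmf, hv1, fun s => ⟨?_, ?_⟩⟩
  · have hdx := hreg s s.2
    by_contra hcon
    push Not at hcon
    exact hdx (ContinuousLinearMap.ext hcon)
  · have hval : MDifferentiableAt (𝓡 n) (𝓡 (n + 1))
        (Subtype.val : ({x | φ x = c} : Set X) → X) s :=
      (hv1 _).mdifferentiableAt (by simp)
    refine ⟨mfderiv (𝓡 n) (𝓡 (n + 1)) (Subtype.val : ({x | φ x = c} : Set X) → X) s,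
      fun u => ?_, fun ψ hψ u => ?_⟩
    · have h1 : mfderiv (𝓡 n) 𝓘(ℝ, ℝ) (φ ∘ (Subtype.val : ({x | φ x = c} : Set X) → X)) s =
          (mfderiv (𝓡 (n + 1)) 𝓘(ℝ, ℝ) φ s).comp
            (mfderiv (𝓡 n) (𝓡 (n + 1)) (Subtype.val : ({x | φ x = c} : Set X) → X) s) :=
        mfderiv_comp (g := φ) s ((hφ s).mdifferentiableAt (by simp)) hval
      have h2 : φ ∘ (Subtype.val : ({x | φ x = c} : Set X) → X) = fun _ => c :=
        funext fun s => s.2
      rw [h2, mfderiv_const] at h1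
      exact (DFunLike.congr_fun h1 u).symm
    · have h1 : mfderiv (𝓡 n) 𝓘(ℝ, ℝ) (ψ ∘ (Subtype.val : ({x | φ x = c} : Set X) → X)) s =
          (mfderiv (𝓡 (n + 1)) 𝓘(ℝ, ℝ) ψ s).comp
            (mfderiv (𝓡 n) (𝓡 (n + 1)) (Subtype.val : ({x | φ x = c} : Set X) → X) s) :=
        mfderiv_comp (g := ψ) s hψ hval
      exact DFunLike.congr_fun h1 u

/-- almost all slices of a null set are null -/
theorem slice_null {k : ℕ} {A : Set (Fin (k + 1) → ℝ)} (hA : volume A = 0) :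
    volume {t : ℝ | ¬ volume {c' : Fin k → ℝ | (Fin.cons t c' : Fin (k + 1) → ℝ) ∈ A} = 0} = 0 := by
  have hmp := volume_preserving_piFinSuccAbove (fun _ : Fin (k + 1) => ℝ) 0
  have h1 : (volume : Measure (ℝ × (Fin k → ℝ)))
      ((MeasurableEquiv.piFinSuccAbove (fun _ : Fin (k + 1) => ℝ) 0).symm ⁻¹' A) = 0 := by
    have h2 := (hmp.symm (MeasurableEquiv.piFinSuccAbove (fun _ : Fin (k + 1) => ℝ) 0))
    rw [h2.measure_preimage_equiv]
    exact hA
  have h3 := Measure.measure_ae_null_of_prod_null h1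
  have h4 : ∀ᵐ t : ℝ, volume {c' : Fin k → ℝ | (Fin.cons t c' : Fin (k + 1) → ℝ) ∈ A} = 0 := by
    filter_upwards [h3] with t ht
    have h5 : {c' : Fin k → ℝ | (Fin.cons t c' : Fin (k + 1) → ℝ) ∈ A} =
        Prod.mk t ⁻¹' ((MeasurableEquiv.piFinSuccAbove (fun _ : Fin (k + 1) => ℝ) 0).symm ⁻¹' A) := by
      ext c'
      have h6 : (MeasurableEquiv.piFinSuccAbove (fun _ : Fin (k + 1) => ℝ) 0).symm (t, c') =
          (Fin.cons t c' : Fin (k + 1) → ℝ) := by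
        show Fin.insertNth 0 t c' = (Fin.cons t c' : Fin (k + 1) → ℝ)
        exact Fin.insertNth_zero _ _
      show (Fin.cons t c' : Fin (k + 1) → ℝ) ∈ A ↔
        (MeasurableEquiv.piFinSuccAbove (fun _ : Fin (k + 1) => ℝ) 0).symm (t, c') ∈ A
      rw [h6]
    rw [h5]
    exact ht
  exact h4

theorem regB (k : ℕ) : ∀ (m : ℕ) (X : Type) [TopologicalSpace X] [SecondCountableTopology X]
    [ChartedSpace (E (m + k)) X] [IsManifold (𝓡 (m + k)) ∞ X] (p : Fin k → X → ℝ),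
    (∀ j, ContMDiff (𝓡 (m + k)) 𝓘(ℝ, ℝ) ∞ (p j)) → ∀ A : Set (Fin k → ℝ), volume A = 0 →
    ∀ (a : Fin k → ℝ) (δ : ℝ), 0 < δ →
    ∃ c : Fin k → ℝ, (∀ j, |c j - a j| < δ) ∧ c ∉ A ∧ ∀ x, (∀ j, p j x = c j) →
      ∀ w : Fin k → ℝ, ∃ v : E (m + k), ∀ j, dm (m + k) (p j) x v = w j := by
  induction k with
  | zero =>
    intro m X _ _ _ _ p _ A hA a δ _
    refine ⟨fun _ => 0, fun j => j.elim0, fun hcon => ?_, fun x _ w => ⟨0, fun j => j.elim0⟩⟩
    have h1 : A = univ := by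
      ext c
      simp only [mem_univ, iff_true]
      have : c = fun _ => 0 := Subsingleton.elim _ _
      rw [this]
      exact hcon
    have h2 : (volume : Measure (Fin 0 → ℝ)) univ = 1 := by
      rw [volume_pi, Measure.pi_of_empty _ (fun _ => 0)]
      simp
    rw [h1, h2] at hA
    exact one_ne_zero hA
  | succ k ih =>
    intro m X _ _ _ _ p hp A hA a δ hδ
    have h1 := slice_null hA
    have h2 := Pool.Agent.N9.SH.sardM _ X (p 0) (hp 0)
    have h3 : ¬ (Ioo (a 0 - δ) (a 0 + δ) ⊆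
        {t : ℝ | ¬ volume {c' : Fin k → ℝ | (Fin.cons t c' : Fin (k + 1) → ℝ) ∈ A} = 0} ∪
          p 0 '' {x | mfderiv (𝓡 (m + (k + 1))) 𝓘(ℝ, ℝ) (p 0) x = 0}) := by
      intro hsub
      have h3 := measure_mono_null hsub (measure_union_null h1 h2)
      rw [Real.volume_Ioo, ENNReal.ofReal_eq_zero] at h3
      linarith
    obtain ⟨c, hc, hc'⟩ := not_subset.1 h3
    rw [mem_union, not_or] at hc'
    obtain ⟨hcA, hcr⟩ := hc'
    simp only [mem_ofPred_eq, not_not] at hcA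
    obtain ⟨cs, hmf, hval, hs⟩ := slice_at (n := m + k) (p 0) (hp 0) c
      (fun x hx h0 => hcr ⟨x, h0, hx⟩)
    obtain ⟨c', hc1, hcA', hc2⟩ := ih m ({x | p 0 x = c} : Set X)
      (fun j s => p j.succ s) (fun j => (hp j.succ).comp hval) _ hcA (fun j => a j.succ) δ hδ
    refine ⟨Fin.cons c c', fun j => ?_, hcA', fun x hx w => ?_⟩
    · refine Fin.cases ?_ (fun j => ?_) j
      · simp only [Fin.cons_zero]
        rw [abs_lt]; constructor <;> linarith [hc.1, hc.2]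
      · simpa using hc1 j
    · have hx0 : p 0 x = c := by simpa using hx 0
      obtain ⟨hd, V, hV, hV'⟩ := hs ⟨x, hx0⟩
      have h2 := hc2 ⟨x, hx0⟩ (fun j => by simpa using hx j.succ)
      obtain ⟨v, hv0, hv1⟩ := combine (p 0) x hd V hV (fun j => p j.succ) (fun w' => by
        obtain ⟨u, hu⟩ := h2 w'
        refine ⟨u, fun j => ?_⟩
        rw [← hu j]
        exact (hV' (p j.succ) ((hp j.succ x).mdifferentiableAt (by simp)) u).symm)
        (w 0) (fun j => w j.succ)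
      refine ⟨v, fun j => ?_⟩
      refine Fin.cases hv0 (fun j => ?_) j
      exact hv1 j

/-- Regular values, off a null set, of a map which is smooth on an open set `G` whose complement is
mapped to the null set. -/
theorem main (m k : ℕ) (X : Type) [TopologicalSpace X] [SecondCountableTopology X]
    [ChartedSpace (E (m + k)) X] [IsManifold (𝓡 (m + k)) ∞ X] (p : X → E k) (G : Set X)
    (hG : IsOpen G) (hp : ∀ x ∈ G, ContMDiffAt (𝓡 (m + k)) (𝓡 k) ∞ p x)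
    (A : Set (E k)) (hnull : volume A = 0) (hGA : ∀ x, x ∉ G → p x ∈ A) (O : Set (E k))
    (hO : IsOpen O) (hne : O.Nonempty) :
    ∃ a ∈ O, a ∉ A ∧ ∀ x, p x = a → x ∈ G ∧ Surjective (mfderiv (𝓡 (m + k)) (𝓡 k) p x) := by
  obtain ⟨a, ha⟩ := hne
  -- the box
  obtain ⟨δ, hδ, hbox⟩ : ∃ δ : ℝ, 0 < δ ∧ ∀ b : E k, (∀ j, |b j - a j| < δ) → b ∈ O := by
    have hcont : Continuous fun c : Fin k → ℝ => (WithLp.toLp 2 c : E k) :=
      PiLp.continuous_toLp 2 _
    have h1 : ∀ᶠ c in 𝓝 (fun j => a j : Fin k → ℝ), (WithLp.toLp 2 c : E k) ∈ O := by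
      apply hcont.continuousAt.eventually
      exact hO.mem_nhds ha
    obtain ⟨δ, hδ, h2⟩ := Metric.eventually_nhds_iff.1 h1
    refine ⟨δ, hδ, fun b hb => ?_⟩
    have h3 : dist (fun j => b j : Fin k → ℝ) (fun j => a j) < δ :=
      (dist_pi_lt_iff hδ).2 fun t => by
        rw [Real.dist_eq]
        exact hb t
    exact h2 h3
  let U : TopologicalSpace.Opens X := ⟨G, hG⟩
  have hU : ∀ u : U, (u : X) ∈ G := fun u => u.2
  have hco : ∀ (u : U) (j : Fin k), ContMDiffAt (𝓡 (m + k)) 𝓘(ℝ, ℝ) ∞ (fun x => p x j) (u : X) := by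
    intro u j
    have h3 : ContDiff ℝ ∞ (fun v : E k => v j) := by fun_prop
    exact h3.contMDiff.contMDiffAt.comp (u : X) (hp u (hU u))
  have hval : ∀ u : U, LD (m + k) (Subtype.val : U → X) u := fun u =>
    Pool.Agent.N550.SH.ld_opens U u
  have hnull' : volume ((fun b : E k => (fun j => b j : Fin k → ℝ)) '' A) = 0 := by
    have h1 := (PiLp.volume_preserving_toLp (Fin k)).measure_preimage_equiv
      (f := (MeasurableEquiv.toLp 2 (Fin k → ℝ))) A
    have h2 : (fun b : E k => (fun j => b j : Fin k → ℝ)) '' A =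
        (MeasurableEquiv.toLp 2 (Fin k → ℝ)) ⁻¹' A := by
      ext c
      constructor
      · rintro ⟨b, hb, rfl⟩
        exact hb
      · intro hc
        exact ⟨_, hc, rfl⟩
    rw [h2, h1]
    exact hnull
  obtain ⟨c, hc1, hcA, hc2⟩ := regB k m U (fun j u => p u j)
    (fun j u => ContMDiffAt.comp (g := fun x => p x j) u (hco u j) (hval u).contMDiffAt)
    _ hnull' (fun j => a j) δ hδ
  refine ⟨WithLp.toLp 2 c, hbox _ hc1, fun hcon => hcA ⟨_, hcon, rfl⟩, fun x hx => ?_⟩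
  have hxG : x ∈ G := by
    by_contra hcon
    have h1 := hGA x hcon
    rw [hx] at h1
    exact hcA ⟨_, h1, rfl⟩
  refine ⟨hxG, ?_⟩
  have hpx : MDifferentiableAt (𝓡 (m + k)) (𝓡 k) p x := (hp x hxG).mdifferentiableAt (by simp)
  intro y
  obtain ⟨u, hu⟩ := hc2 (⟨x, hxG⟩ : U) (fun j => by show p x j = c j; rw [hx])
    (fun j => (show E k from y) j)
  refine ⟨mfderiv (𝓡 (m + k)) (𝓡 (m + k)) (Subtype.val : U → X) ⟨x, hxG⟩ u, ?_⟩
  have key : ∀ v, ∀ j, (show E k from mfderiv (𝓡 (m + k)) (𝓡 k) p x v) j =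
      dm (m + k) (fun x => p x j) x v := by
    intro v j
    have h3 : ContDiff ℝ ∞ (fun v : E k => v j) := by fun_prop
    have h4 : MDifferentiableAt (𝓡 k) 𝓘(ℝ, ℝ) (fun v : E k => v j) (p x) :=
      h3.contMDiff.contMDiffAt.mdifferentiableAt (by simp)
    have h5 : mfderiv (𝓡 (m + k)) 𝓘(ℝ, ℝ) ((fun v : E k => v j) ∘ p) x =
        (mfderiv (𝓡 k) 𝓘(ℝ, ℝ) (fun v : E k => v j) (p x)).comp
          (mfderiv (𝓡 (m + k)) (𝓡 k) p x) := mfderiv_comp x h4 hpx
    have h6 := DFunLike.congr_fun h5 v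
    have h7 : mfderiv (𝓡 k) 𝓘(ℝ, ℝ) (fun v : E k => v j) (p x) =
        (EuclideanSpace.proj j : E k →L[ℝ] ℝ) := by
      rw [mfderiv_eq_fderiv]
      exact (EuclideanSpace.proj j : E k →L[ℝ] ℝ).fderiv
    rw [h7] at h6
    exact h6.symm
  show (show E k from mfderiv (𝓡 (m + k)) (𝓡 k) p x _) = (show E k from y)
  ext j
  rw [key _ j, ← hu j]
  have h1 : mfderiv (𝓡 (m + k)) 𝓘(ℝ, ℝ) ((fun x => p x j) ∘ (Subtype.val : U → X)) ⟨x, hxG⟩ =
      (mfderiv (𝓡 (m + k)) 𝓘(ℝ, ℝ) (fun x => p x j) x).comp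
        (mfderiv (𝓡 (m + k)) (𝓡 (m + k)) (Subtype.val : U → X) ⟨x, hxG⟩) :=
    mfderiv_comp (g := fun x => p x j) (⟨x, hxG⟩ : U)
      ((hco ⟨x, hxG⟩ j).mdifferentiableAt (by simp))
      ((hval ⟨x, hxG⟩).contMDiffAt.mdifferentiableAt (by simp))
  exact (DFunLike.congr_fun h1 u).symm

end Pool.Agent.L0h29.CS.Reg2
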