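import Pool.Agent.N550.KH.One
import Pool.Agent.N550.KH.Fin
import Pool.Agent.N550.KH.Null
import Pool.Agent.L0h29.CS.Reg2

/-!
# Project CS: maps which are smooth and injective over the complement of a small closed set
-/

set_option autoImplicit false

open Set Filter Topology Metric Function MeasureTheory
open scoped Manifold ContDiff

noncomputable section

namespace Pool.Agent.L0h29.CS

open Pool.Agent.Y522 Pool.Agent.N550.KH Pool.Agent.N550.KH.One

/-- a subset of a manifold with two-dimensional Hausdorff measure zero, in the preferred charts -/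
def NullC2 (n : ℕ) {N : Type} [TopologicalSpace N] [ChartedSpace (E n) N] (B : Set N) : Prop :=
  ∀ x₀ : N, Measure.hausdorffMeasure 2
    (chartAt (E n) x₀ '' ((chartAt (E n) x₀).source ∩ B) : Set (E n)) = 0

/-- a subset of a manifold with two-dimensional Hausdorff measure zero, in all the open
parametrizations by `E n` -/
def NullH2 (n : ℕ) {N : Type} [TopologicalSpace N] [ChartedSpace (E n) N] (B : Set N) : Prop :=
  ∀ h : E n → N, Injective h → (∀ z, LD n h z) →
    Measure.hausdorffMeasure 2 (h ⁻¹' B : Set (E n)) = 0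

/-- images of sets of vanishing two-dimensional Hausdorff measure under maps of class `C¹` -/
theorem null_image {n : ℕ} {S : Set (E n)}
    (hS : Measure.hausdorffMeasure 2 S = 0) (f : E n → E n) (hf : ∀ x ∈ S, ContDiffAt ℝ 1 f x) :
    Measure.hausdorffMeasure 2 (f '' S) = 0 := by
  have h : ∀ x ∈ S, ∃ V ∈ 𝓝 x, Measure.hausdorffMeasure 2 (f '' (S ∩ V)) = 0 := by
    intro x hx
    obtain ⟨K, t, ht, hK⟩ := (hf x hx).exists_lipschitzOnWith
    refine ⟨t, ht, ?_⟩
    have h1 := (hK.mono (inter_subset_right (s := S))).hausdorffMeasure_image_le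
      (zero_le_two)
    have h2 : Measure.hausdorffMeasure 2 (S ∩ t) = 0 := measure_mono_null inter_subset_left hS
    rw [h2, mul_zero] at h1
    exact le_antisymm h1 bot_le
  choose! V hV hr using h
  obtain ⟨t, hts, htc, hcov⟩ := TopologicalSpace.countable_cover_nhdsWithin
    (s := S) (f := V) (fun x hx => mem_nhdsWithin_of_mem_nhds (hV x hx))
  have h1 : f '' S ⊆ ⋃ x ∈ t, f '' (S ∩ V x) := by
    rintro _ ⟨y, hy, rfl⟩
    obtain ⟨x, hx, hyx⟩ := mem_iUnion₂.1 (hcov hy)
    exact mem_iUnion₂.2 ⟨x, hx, y, ⟨hy, hyx⟩, rfl⟩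
  refine measure_mono_null h1 ?_
  rw [measure_biUnion_null_iff htc]
  exact fun x hx => hr x (hts hx)

theorem NullC2.nullH2 {n : ℕ} {N : Type} [TopologicalSpace N] [ChartedSpace (E n) N]
    [IsManifold (𝓡 n) ∞ N] {B : Set N} (hB : NullC2 n B) : NullH2 n B := by
  intro h hinj hld
  set g : N → E n := invFun h with hg
  have hgl : ∀ y, g (h y) = y := leftInverse_invFun hinj
  have key : ∀ z ∈ h ⁻¹' B, ∃ V ∈ 𝓝 z, Measure.hausdorffMeasure 2 (h ⁻¹' B ∩ V) = 0 := by
    intro z hz
    set e := chartAt (E n) (h z) with he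
    refine ⟨h ⁻¹' e.source, (hld z).continuousAt.preimage_mem_nhds
      (e.open_source.mem_nhds (mem_chart_source _ _)), ?_⟩
    have hS : Measure.hausdorffMeasure 2 (e '' (e.source ∩ B ∩ range h) : Set (E n)) = 0 :=
      measure_mono_null (image_mono inter_subset_left) (hB (h z))
    refine measure_mono_null ?_ (null_image hS (fun w => g (e.symm w)) ?_)
    · intro y hy
      refine ⟨e (h y), ⟨h y, ⟨⟨hy.2, hy.1⟩, y, rfl⟩, rfl⟩, ?_⟩
      change g (e.symm (e (h y))) = y
      rw [e.left_inv hy.2, hgl]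
    · rintro _ ⟨_, ⟨⟨hs, -⟩, y, rfl⟩, rfl⟩
      have h1 : LD n e.symm (e (h y)) := Null.ld_chart_symm (h z) _ (e.map_source hs)
      have h2 : LD n g (e.symm (e (h y))) := by
        rw [e.left_inv hs]
        exact LD.inverse isOpen_univ (fun x _ => hld x) (fun x _ => hgl x) (mem_univ y)
      exact (h2.comp_fun h1).contDiffAt.of_le (by simp)
  choose! V hV hr using key
  obtain ⟨t, hts, htc, hcov⟩ := TopologicalSpace.countable_cover_nhdsWithin
    (s := h ⁻¹' B) (f := V) (fun x hx => mem_nhdsWithin_of_mem_nhds (hV x hx))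
  have h1 : h ⁻¹' B ⊆ ⋃ x ∈ t, (h ⁻¹' B ∩ V x) := by
    intro y hy
    obtain ⟨x, hx, hyx⟩ := mem_iUnion₂.1 (hcov hy)
    exact mem_iUnion₂.2 ⟨x, hx, hy, hyx⟩
  refine measure_mono_null h1 ?_
  rw [measure_biUnion_null_iff htc]
  exact fun x hx => hr x (hts hx)

section

variable {n : ℕ} {M N : Type} [TopologicalSpace M] [ChartedSpace (E n) M]
  [TopologicalSpace N] [ChartedSpace (E n) N]

theorem NullH2.mono {B B' : Set N} (h : B ⊆ B') (hB : NullH2 n B') : NullH2 n B := by
  intro l hl hld
  exact measure_mono_null (preimage_mono h) (hB l hl hld)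

theorem nullH2_image {B : Set N} (hB : NullH2 n B) {K : N → N} (hK : IsDf n K) :
    NullH2 n (K '' B) := by
  intro l hl hld
  obtain ⟨K', h1, h2, h3⟩ := IsDf_inv hK
  have h4 := hB (fun z => K' (l z)) (fun a b hab => hl (by
    have := congrArg K hab
    simpa only [h2] using this)) (fun z => LD.comp_fun (h3 _) (hld z))
  have h5 : l ⁻¹' (K '' B) = (fun z => K' (l z)) ⁻¹' B := by
    ext z
    constructor
    · rintro ⟨b, hb, hbz⟩
      show K' (l z) ∈ B
      rw [← hbz, h1]; exact hb
    · intro hz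
      exact ⟨K' (l z), hz, h2 _⟩
  rw [h5]; exact h4

/-- sets with two-dimensional Hausdorff measure zero are null in dimension at least two -/
theorem volume_null {k : ℕ} (hk : 2 ≤ k) {S : Set (E k)}
    (hS : Measure.hausdorffMeasure 2 S = 0) : volume S = 0 := by
  have h1 : Measure.hausdorffMeasure (k : ℝ) S = 0 := by
    refine le_antisymm ?_ bot_le
    rw [← hS]
    exact Measure.hausdorffMeasure_mono (by exact_mod_cast hk) S
  have h2 : (volume : Measure (E k)) ≪ Measure.hausdorffMeasure (Module.finrank ℝ (E k) : ℝ) :=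
    Measure.absolutelyContinuous_isAddHaarMeasure _ _
  apply h2
  rw [finrank_euclideanSpace, Fintype.card_fin]
  exact h1

theorem vp_null {m k : ℕ} (hk : 2 ≤ k) {S : Set (E (m + k))}
    (hS : Measure.hausdorffMeasure 2 S = 0) : volume (vp m k '' S) = 0 := by
  apply volume_null hk
  have h1 := (vp m k).lipschitz.hausdorffMeasure_image_le (d := 2) zero_le_two S
  rw [hS, mul_zero] at h1
  exact le_antisymm h1 bot_le

/-- `f` is continuous, and over the complement of the closed null set `Z` it is injective and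
smooth -/
structure Inv (n : ℕ) {M N : Type} [TopologicalSpace M] [ChartedSpace (E n) M]
    [TopologicalSpace N] [ChartedSpace (E n) N] (f : M → N) (Z : Set N) : Prop where
  cont : Continuous f
  closed : IsClosed Z
  null : NullH2 n Z
  good : ∀ y, y ∉ Z → ∃ x, f x = y ∧ Sm n f x ∧ ∀ x', f x' = y → x' = x

theorem Inv.sm {f : M → N} {Z : Set N} (h : Inv n f Z) {x : M} (hx : f x ∉ Z) : Sm n f x := by
  obtain ⟨x', -, h2, h3⟩ := h.good _ hx
  rw [h3 x rfl]
  exact h2

theorem Inv.inj {f : M → N} {Z : Set N} (h : Inv n f Z) {x y : M} (hx : f x ∉ Z)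
    (hxy : f x = f y) : x = y := by
  obtain ⟨x', -, -, h3⟩ := h.good _ hx
  rw [h3 x rfl, h3 y hxy.symm]

/-- composition with a diffeomorphism -/
theorem Inv.comp {f : M → N} {Z : Set N} (h : Inv n f Z) {K : N → N} (hK : IsDf n K) :
    Inv n (fun x => K (f x)) (K '' Z) := by
  obtain ⟨K', h1, h2, h3⟩ := IsDf_inv hK
  have hKc : Continuous K := continuous_iff_continuousAt.2 fun x => (hK.2 x).continuousAt
  have hKc' : Continuous K' := continuous_iff_continuousAt.2 fun x => (h3 x).continuousAt
  have himg : K '' Z = K' ⁻¹' Z := by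
    ext y
    constructor
    · rintro ⟨z, hz, rfl⟩
      show K' (K z) ∈ Z
      rw [h1]; exact hz
    · intro hy
      exact ⟨K' y, hy, h2 y⟩
  refine ⟨hKc.comp h.cont, ?_, nullH2_image h.null hK, fun y hy => ?_⟩
  · rw [himg]
    exact h.closed.preimage hKc'
  · rw [himg] at hy
    obtain ⟨x, hx, hs, hu⟩ := h.good (K' y) hy
    refine ⟨x, ?_, sm_comp (f := f) (g := K) hs
      (Eventually.of_forall fun y => (hK.2 y).contMDiffAt), fun x' hx' => hu x' ?_⟩
    · show K (f x) = y
      rw [hx, h2]
    · rw [← hx', h1]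

theorem Inv.notMem_image {f : M → N} {Z : Set N} (_h : Inv n f Z) {K : N → N} (hK : IsDf n K)
    {y : N} (hy : y ∉ Z) : K y ∉ K '' Z := by
  rintro ⟨z, hz, hzy⟩
  exact hy (hK.1.1 hzy ▸ hz)

/-- such a map is open over the complement of `Z` -/
theorem Inv.isOpen_image [CompactSpace M] [T2Space N] {f : M → N} {Z : Set N} (h : Inv n f Z)
    {V : Set M} (hV : IsOpen V) (hVZ : ∀ x ∈ V, f x ∉ Z) : IsOpen (f '' V) := by
  have h1 : f '' V = (f '' Vᶜ ∪ Z)ᶜ := by
    ext y
    constructor
    · rintro ⟨x, hx, rfl⟩ (⟨x', hx', hxx⟩ | hZ)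
      · have := h.inj (hVZ x hx) hxx.symm
        rw [this] at hx
        exact hx' hx
      · exact hVZ x hx hZ
    · intro hy
      rw [mem_compl_iff, mem_union, not_or] at hy
      obtain ⟨x, hx, -, -⟩ := h.good y hy.2
      refine ⟨x, ?_, hx⟩
      by_contra hcon
      exact hy.1 ⟨x, hcon, hx⟩
  rw [h1]
  exact ((hV.isClosed_compl.isCompact.image h.cont).isClosed.union h.closed).isOpen_compl

/-- the map followed by the inverse of an open embedding `E n → N` with image off `Z` -/
def mkG [CompactSpace M] [T2Space N] (f : M → N) (Z : Set N) (h : Inv n f Z) (l : E n → N)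
    (hl : Injective l) (hld : ∀ z, LD n l z) (hlZ : ∀ z, l z ∉ Z) :
    OpenPartialHomeomorph M (E n) where
  toFun x := linv l (f x)
  invFun z := (h.good (l z) (hlZ z)).choose
  source := f ⁻¹' range l
  target := univ
  map_source' _ _ := mem_univ _
  map_target' z _ := by
    show f (h.good (l z) (hlZ z)).choose ∈ range l
    rw [(h.good (l z) (hlZ z)).choose_spec.1]
    exact ⟨z, rfl⟩
  left_inv' := by
    rintro x ⟨z, hz⟩
    rw [← hz, linv_l hl]
    exact ((h.good (l z) (hlZ z)).choose_spec.2.2 x hz.symm).symm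
  right_inv' := by
    intro z _
    rw [(h.good (l z) (hlZ z)).choose_spec.1, linv_l hl]
  open_source := (open_range hld).preimage h.cont
  open_target := isOpen_univ
  continuousOn_toFun := by
    rintro x ⟨z, hz⟩
    apply ContinuousAt.continuousWithinAt
    refine ContinuousAt.comp (f := f) (g := linv l) ?_ h.cont.continuousAt
    rw [← hz]
    exact (linv_ld hl hld z).continuousAt
  continuousOn_invFun := by
    refine Continuous.continuousOn ?_
    rw [continuous_iff_isClosed]
    intro C hC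
    have h1 : (fun z => (h.good (l z) (hlZ z)).choose) ⁻¹' C = l ⁻¹' (f '' C) := by
      ext z
      constructor
      · intro hz
        exact ⟨_, hz, (h.good (l z) (hlZ z)).choose_spec.1⟩
      · rintro ⟨x, hx, hxz⟩
        have h2 := (h.good (l z) (hlZ z)).choose_spec.2.2 x hxz
        show (h.good (l z) (hlZ z)).choose ∈ C
        rw [← h2]
        exact hx
    rw [h1]
    exact (hC.isCompact.image h.cont).isClosed.preimage
      (continuous_iff_continuousAt.2 fun z => (hld z).continuousAt)

theorem mkG_apply [CompactSpace M] [T2Space N] (f : M → N) (Z : Set N) (h : Inv n f Z)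
    (l : E n → N) (hl : Injective l) (hld : ∀ z, LD n l z) (hlZ : ∀ z, l z ∉ Z) (x : M) :
    mkG f Z h l hl hld hlZ x = linv l (f x) := rfl

theorem mkG_source [CompactSpace M] [T2Space N] (f : M → N) (Z : Set N) (h : Inv n f Z)
    (l : E n → N) (hl : Injective l) (hld : ∀ z, LD n l z) (hlZ : ∀ z, l z ∉ Z) :
    (mkG f Z h l hl hld hlZ).source = f ⁻¹' range l := rfl

theorem mkG_target [CompactSpace M] [T2Space N] (f : M → N) (Z : Set N) (h : Inv n f Z)
    (l : E n → N) (hl : Injective l) (hld : ∀ z, LD n l z) (hlZ : ∀ z, l z ∉ Z) :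
    (mkG f Z h l hl hld hlZ).target = univ := rfl

theorem mkG_l [CompactSpace M] [T2Space N] (f : M → N) (Z : Set N) (h : Inv n f Z)
    (l : E n → N) (hl : Injective l) (hld : ∀ z, LD n l z) (hlZ : ∀ z, l z ∉ Z) {x : M}
    (hx : x ∈ (mkG f Z h l hl hld hlZ).source) : l (mkG f Z h l hl hld hlZ x) = f x := by
  obtain ⟨z, hz⟩ := hx
  rw [mkG_apply, ← hz, linv_l hl]

end

end Pool.Agent.L0h29.CS
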