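import Pool.Agent.L0h29.CS.Sum
import Pool.Agent.L0h29.CS.Inv

/-!
# Project CS: the collapse of a connected summand
-/

set_option autoImplicit false
set_option linter.unusedSectionVars false

open Set Filter Topology Metric Function MeasureTheory
open scoped Manifold ContDiff

noncomputable section

namespace Pool.Agent.L0h29.CS

open Pool.Agent.Y522 Pool.Agent.N550.KH Pool.Agent.N550.KH.One Close

namespace Rad

/-- the radial factor -/
def lam (t : ℝ) : ℝ := Real.smoothTransition (2 * t - 1)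

theorem lam_mono : Monotone lam := fun a b h =>
  Real.smoothTransition.monotone (by linarith)

theorem lam_nonneg (t : ℝ) : 0 ≤ lam t := Real.smoothTransition.nonneg _

theorem lam_le (t : ℝ) : lam t ≤ 1 := Real.smoothTransition.le_one _

theorem lam_zero {t : ℝ} (h : t ≤ 1 / 2) : lam t = 0 :=
  Real.smoothTransition.zero_of_nonpos (by linarith)

theorem lam_one {t : ℝ} (h : 1 ≤ t) : lam t = 1 :=
  Real.smoothTransition.one_of_one_le (by linarith)

theorem lam_pos {t : ℝ} (h : 1 / 2 < t) : 0 < lam t :=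
  Real.smoothTransition.pos_of_pos (by linarith)

theorem lam_smooth : ContDiff ℝ ∞ lam :=
  Real.smoothTransition.contDiff.comp (by fun_prop)

variable {n : ℕ}

/-- the radial map -/
def psi (z : E n) : E n := lam (‖z‖ ^ 2) • z

theorem psi_smooth : ContDiff ℝ ∞ (psi : E n → E n) :=
  (lam_smooth.comp (contDiff_norm_sq ℝ)).smul contDiff_id

theorem psi_norm (z : E n) : ‖psi z‖ = lam (‖z‖ ^ 2) * ‖z‖ := by
  rw [psi, norm_smul, Real.norm_of_nonneg (lam_nonneg _)]

theorem psi_le (z : E n) : ‖psi z‖ ≤ ‖z‖ := by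
  rw [psi_norm]
  nlinarith [lam_le (‖z‖ ^ 2), lam_nonneg (‖z‖ ^ 2), norm_nonneg z]

theorem psi_id {z : E n} (h : 1 ≤ ‖z‖) : psi z = z := by
  rw [psi, lam_one (by nlinarith), one_smul]

theorem psi_zero {z : E n} (h : ‖z‖ ^ 2 ≤ 1 / 2) : psi z = 0 := by
  rw [psi, lam_zero h, zero_smul]

theorem psi_surj {z : E n} (h0 : z ≠ 0) (h : ‖z‖ < 2) :
    ∃ z' : E n, ‖z'‖ < 2 ∧ 1 / 2 < ‖z'‖ ∧ psi z' = z := by
  have hz : 0 < ‖z‖ := norm_pos_iff.2 h0
  set T : ℝ := max ‖z‖ 1 with hT
  have hT1 : 1 ≤ T := le_max_right _ _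
  have hTz : ‖z‖ ≤ T := le_max_left _ _
  have hT2 : T < 2 := max_lt h (by norm_num)
  have hc : Continuous fun t : ℝ => lam (t ^ 2) * t :=
    (lam_smooth.continuous.comp (continuous_pow 2)).mul continuous_id
  obtain ⟨t, ht, htz⟩ : ∃ t ∈ Icc (0 : ℝ) T, lam (t ^ 2) * t = ‖z‖ := by
    have h1 := intermediate_value_Icc (by linarith : (0 : ℝ) ≤ T) hc.continuousOn
    apply h1
    constructor
    · show lam (0 ^ 2) * 0 ≤ ‖z‖
      rw [mul_zero]; exact hz.le
    · show ‖z‖ ≤ lam (T ^ 2) * T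
      rw [lam_one (by nlinarith), one_mul]
      exact hTz
  have ht0 : 1 / 2 < t := by
    by_contra hcon
    have h1 : lam (t ^ 2) = 0 := lam_zero (by nlinarith [ht.1, not_lt.1 hcon])
    rw [h1, zero_mul] at htz
    exact hz.ne htz
  have hn : ‖(t / ‖z‖) • z‖ = t := by
    rw [norm_smul, Real.norm_of_nonneg (by positivity)]
    field_simp
  refine ⟨(t / ‖z‖) • z, by rw [hn]; linarith [ht.2], by rw [hn]; exact ht0, ?_⟩
  rw [psi, hn, smul_smul, ← mul_div_assoc, htz, div_self hz.ne', one_smul]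

theorem psi_inj {z z' : E n} (h : psi z = psi z') (h0 : psi z ≠ 0) : z = z' := by
  have h1 : lam (‖z‖ ^ 2) * ‖z‖ = lam (‖z'‖ ^ 2) * ‖z'‖ := by
    rw [← psi_norm, ← psi_norm, h]
  have h2 : 0 < lam (‖z‖ ^ 2) * ‖z‖ := by
    rw [← psi_norm]; exact norm_pos_iff.2 h0
  have key : ∀ a b : ℝ, 0 ≤ a → 0 ≤ b → 0 < lam (a ^ 2) * a → lam (a ^ 2) * a = lam (b ^ 2) * b →
      ¬ a < b := by
    intro a b ha hb hpos heq hab
    have h3 : lam (a ^ 2) ≤ lam (b ^ 2) := lam_mono (by nlinarith)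
    have h4 : 0 < lam (a ^ 2) := by
      rcases (lam_nonneg (a ^ 2)).eq_or_lt with h5 | h5
      · rw [← h5, zero_mul] at hpos
        exact absurd hpos (lt_irrefl _)
      · exact h5
    nlinarith [mul_lt_mul_of_pos_left hab h4, mul_le_mul_of_nonneg_right h3 hb]
  have h3 : ‖z‖ = ‖z'‖ := by
    rcases lt_trichotomy ‖z‖ ‖z'‖ with h4 | h4 | h4
    · exact absurd h4 (key _ _ (norm_nonneg _) (norm_nonneg _) h2 h1)
    · exact h4
    · exact absurd h4 (key _ _ (norm_nonneg _) (norm_nonneg _) (by rw [← h1]; exact h2) h1.symm)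
  have h4 : lam (‖z‖ ^ 2) ≠ 0 := by
    intro hcon
    rw [hcon, zero_mul] at h2
    exact absurd h2 (lt_irrefl _)
  have h5 : lam (‖z‖ ^ 2) • z = lam (‖z‖ ^ 2) • z' := by
    have h6 : psi z' = lam (‖z‖ ^ 2) • z' := by rw [psi, h3]
    rw [← h6, ← h]; rfl
  exact smul_right_injective _ h4 h5

end Rad

open Rad

/-- If `M` is a connected sum of `N` and `P`, then there is a smooth map from `M` to `N` for which
all points but one have exactly one preimage. -/
theorem collapse (n : ℕ) (M N P : Type) [TopologicalSpace M] [ChartedSpace (E n) M]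
    [IsManifold (𝓡 n) ∞ M] [TopologicalSpace N] [T2Space N] [ChartedSpace (E n) N]
    [IsManifold (𝓡 n) ∞ N] [TopologicalSpace P] [T2Space P] [ChartedSpace (E n) P]
    [IsManifold (𝓡 n) ∞ P] (h : ConnSum n M N P) :
    ∃ (f : M → N) (y₀ : N), ContMDiff (𝓡 n) (𝓡 n) ∞ f ∧
      ∀ y, y ≠ y₀ → ∃ x, f x = y ∧ ∀ x', f x' = y → x' = x := by
  classical
  obtain ⟨p, q, i, j, hp, hq, hi1, hi2, hj1, hj2, hcov, hglue⟩ := h
  have hball : (closedBall (0 : E n) (1 / 2)) ⊆ ball 0 2 :=
    closedBall_subset_ball (by norm_num)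
  have hpc : ContinuousOn p (ball 0 2) := fun z hz => (hp.2 z hz).continuousAt.continuousWithinAt
  have hqc : ContinuousOn q (ball 0 2) := fun z hz => (hq.2 z hz).continuousAt.continuousWithinAt
  have hpcl : ∀ r : ℝ, r < 2 → IsClosed (p '' closedBall 0 r) := fun r hr =>
    ((isCompact_closedBall _ _).image_of_continuousOn
      (hpc.mono (closedBall_subset_ball hr))).isClosed
  have hqcl : ∀ r : ℝ, r < 2 → IsClosed (q '' closedBall 0 r) := fun r hr =>
    ((isCompact_closedBall _ _).image_of_continuousOn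
      (hqc.mono (closedBall_subset_ball hr))).isClosed
  have hpo : IsOpen (p '' ball 0 2) := isOpen_image_of_LD isOpen_ball hp.2
  -- the map `φ` of `N`
  let φ : N → N := fun y => if h : ∃ z ∈ ball (0 : E n) 2, p z = y then p (psi h.choose) else y
  have hφp : ∀ z ∈ ball (0 : E n) 2, φ (p z) = p (psi z) := by
    intro z hz
    have h : ∃ z' ∈ ball (0 : E n) 2, p z' = p z := ⟨z, hz, rfl⟩
    show (if h : ∃ z' ∈ ball (0 : E n) 2, p z' = p z then p (psi h.choose) else p z) = _
    rw [dif_pos h]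
    have h1 : h.choose = z := hp.1 h.choose_spec.1 hz h.choose_spec.2
    rw [h1]
  have hφo : ∀ y, y ∉ p '' ball 0 2 → φ y = y := by
    intro y hy
    show (if h : ∃ z' ∈ ball (0 : E n) 2, p z' = y then p (psi h.choose) else y) = _
    rw [dif_neg]
    rintro ⟨z, hz, hzy⟩
    exact hy ⟨z, hz, hzy⟩
  have hφ1 : ∀ y, y ∉ p '' closedBall 0 1 → φ y = y := by
    intro y hy
    by_cases h1 : y ∈ p '' ball 0 2
    · obtain ⟨z, hz, rfl⟩ := h1
      rw [hφp z hz, psi_id]
      by_contra hcon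
      exact hy ⟨z, mem_closedBall_zero_iff.2 (not_le.1 hcon).le, rfl⟩
    · exact hφo y h1
  have hφs : ∀ y, ContMDiffAt (𝓡 n) (𝓡 n) ∞ φ y := by
    intro y
    by_cases h1 : y ∈ p '' ball 0 2
    · obtain ⟨z, hz, rfl⟩ := h1
      -- local inverse of `p`
      obtain ⟨Φ, hzΦ, heq⟩ := hp.2 z hz
      have h2 : p z = Φ z := heq hzΦ
      have h3 : LD n Φ.symm (p z) := ⟨Φ.symm, by rw [h2]; exact Φ.map_source hzΦ, fun _ _ => rfl⟩
      have h4 : Φ.symm (p z) = z := by rw [h2]; exact Φ.left_inv hzΦ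
      have h5 : ContMDiffAt (𝓡 n) (𝓡 n) ∞ (fun y => p (psi (Φ.symm y))) (p z) := by
        have h6 : ContMDiffAt (𝓡 n) (𝓡 n) ∞ (fun y => psi (Φ.symm y)) (p z) :=
          ContMDiffAt.comp (g := psi) (p z) psi_smooth.contMDiff.contMDiffAt h3.contMDiffAt
        have h7 : psi (Φ.symm (p z)) ∈ ball (0 : E n) 2 := by
          rw [h4, mem_ball_zero_iff]
          exact (psi_le z).trans_lt (mem_ball_zero_iff.1 hz)
        exact ContMDiffAt.comp (g := p) (p z) (hp.2 _ h7).contMDiffAt h6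
      refine h5.congr_of_eventuallyEq ?_
      have h8 : ∀ᶠ y in 𝓝 (p z), Φ.symm y ∈ ball (0 : E n) 2 := by
        apply h3.continuousAt
        rw [h4]
        exact isOpen_ball.mem_nhds hz
      have h9 : ∀ᶠ y in 𝓝 (p z), y ∈ Φ.target :=
        Φ.open_target.mem_nhds (by rw [h2]; exact Φ.map_source hzΦ)
      filter_upwards [h8, h9] with y hy1 hy2
      have h10 : p (Φ.symm y) = y :=
        (heq (Φ.map_target hy2)).trans (Φ.right_inv hy2)
      rw [← hφp _ hy1, h10]
    · have h2 : y ∉ p '' closedBall 0 1 := fun hcon =>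
        h1 (image_mono (closedBall_subset_ball (by norm_num)) hcon)
      have h3 : φ =ᶠ[𝓝 y] fun y => y := by
        filter_upwards [(hpcl 1 (by norm_num)).isOpen_compl.mem_nhds h2] with w hw
        exact hφ1 w hw
      exact contMDiffAt_id.congr_of_eventuallyEq h3
  -- the map `f`
  set U : Set N := (p '' closedBall 0 (1 / 2))ᶜ with hU
  have hUo : IsOpen U := (hpcl (1 / 2) (by norm_num)).isOpen_compl
  have hV : IsOpen (q '' closedBall 0 (1 / 2))ᶜ := (hqcl (1 / 2) (by norm_num)).isOpen_compl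
  let f : M → N := fun x => if h : ∃ y ∈ U, i y = x then φ h.choose else p 0
  have hfi : ∀ y ∈ U, f (i y) = φ y := by
    intro y hy
    have h : ∃ y' ∈ U, i y' = i y := ⟨y, hy, rfl⟩
    show (if h : ∃ y' ∈ U, i y' = i y then φ h.choose else p 0) = _
    rw [dif_pos h]
    have h1 : h.choose = y := hi1 h.choose_spec.1 hy h.choose_spec.2
    rw [h1]
  have hfo : ∀ x, x ∉ i '' U → f x = p 0 := by
    intro x hx
    show (if h : ∃ y' ∈ U, i y' = x then φ h.choose else p 0) = _
    rw [dif_neg]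
    rintro ⟨y, hy, hyx⟩
    exact hx ⟨y, hy, hyx⟩
  refine ⟨f, p 0, fun x => ?_, fun y hy => ?_⟩
  · by_cases hx : x ∈ i '' U
    · obtain ⟨y, hy, rfl⟩ := hx
      obtain ⟨Φ, hyΦ, heq⟩ := hi2 y hy
      have h2 : i y = Φ y := heq hyΦ
      have h3 : LD n Φ.symm (i y) := ⟨Φ.symm, by rw [h2]; exact Φ.map_source hyΦ, fun _ _ => rfl⟩
      have h4 : Φ.symm (i y) = y := by rw [h2]; exact Φ.left_inv hyΦ
      have h5 : ContMDiffAt (𝓡 n) (𝓡 n) ∞ (fun x => φ (Φ.symm x)) (i y) :=
        ContMDiffAt.comp (g := φ) (i y) (hφs _) h3.contMDiffAt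
      refine h5.congr_of_eventuallyEq ?_
      have h8 : ∀ᶠ x in 𝓝 (i y), Φ.symm x ∈ U := by
        apply h3.continuousAt
        rw [h4]
        exact hUo.mem_nhds hy
      have h9 : ∀ᶠ x in 𝓝 (i y), x ∈ Φ.target :=
        Φ.open_target.mem_nhds (by rw [h2]; exact Φ.map_source hyΦ)
      filter_upwards [h8, h9] with x hx1 hx2
      have h10 : i (Φ.symm x) = x :=
        (heq (Φ.map_target hx2)).trans (Φ.right_inv hx2)
      rw [← hfi _ hx1, h10]
    · have hx2 : x ∈ i '' U ∪ j '' (q '' closedBall 0 (1 / 2))ᶜ := by rw [hcov]; trivial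
      rcases hx2 with hx2 | ⟨s, hs, rfl⟩
      · exact absurd hx2 hx
      have h1 : s ∉ q '' closedBall 0 (3 / 2) := by
        rintro ⟨w, hw, rfl⟩
        rw [mem_closedBall_zero_iff] at hw
        have hw1 : 1 / 2 < ‖w‖ := by
          by_contra hcon
          exact hs ⟨w, mem_closedBall_zero_iff.2 (not_lt.1 hcon), rfl⟩
        have hw0 : w ≠ 0 := by
          intro hcon
          rw [hcon, norm_zero] at hw1
          norm_num at hw1
        have h2 : 1 / 2 < ‖inv0 w‖ := inv0_lt_norm hw0 (by linarith)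
        have h3 : ‖inv0 w‖ < 2 := inv0_norm_lt hw1
        have h4 : p (inv0 w) ∈ U := by
          rintro ⟨z, hz, hzw⟩
          have h5 := hp.1 (hball hz) (mem_ball_zero_iff.2 h3) hzw
          rw [h5, mem_closedBall_zero_iff] at hz
          linarith
        apply hx
        refine ⟨p (inv0 w), h4, ?_⟩
        rw [hglue _ h4 _ hs]
        exact ⟨inv0 w, h2, h3, rfl, congrArg q (inv0_inv0 w).symm⟩
      have h2 : IsOpen ((q '' closedBall 0 (1 / 2))ᶜ ∩ (q '' closedBall 0 (3 / 2))ᶜ) :=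
        hV.inter (hqcl (3 / 2) (by norm_num)).isOpen_compl
      have h3 : IsOpen (j '' ((q '' closedBall 0 (1 / 2))ᶜ ∩ (q '' closedBall 0 (3 / 2))ᶜ)) :=
        isOpen_image_of_LD h2 (fun s hs => hj2 s hs.1)
      have h4 : f =ᶠ[𝓝 (j s)] fun _ => p 0 := by
        filter_upwards [h3.mem_nhds ⟨s, ⟨hs, h1⟩, rfl⟩] with x hx3
        obtain ⟨s', ⟨hs1, hs2⟩, rfl⟩ := hx3
        by_cases h5 : j s' ∈ i '' U
        · obtain ⟨y, hy, hyx⟩ := h5
          obtain ⟨z, hz1, hz2, hz3, hz4⟩ := (hglue y hy s' hs1).1 hyx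
          have hz0 : z ≠ 0 := by
            intro hcon
            rw [hcon, norm_zero] at hz1
            norm_num at hz1
          have h6 : 3 / 2 < ‖z‖⁻¹ := by
            rw [← norm_inv0]
            by_contra hcon
            apply hs2
            rw [hz4]
            exact ⟨inv0 z, mem_closedBall_zero_iff.2 (not_lt.1 hcon), rfl⟩
          have h7 : ‖z‖ < 2 / 3 := by
            have h8 := inv_strictAnti₀ (by norm_num : (0 : ℝ) < 3 / 2) h6
            rw [inv_inv] at h8
            norm_num at h8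
            exact h8
          rw [← hyx, hfi y hy, hz3, hφp z (mem_ball_zero_iff.2 hz2), psi_zero]
          nlinarith
        · exact hfo _ h5
      exact contMDiffAt_const.congr_of_eventuallyEq h4
  · by_cases h1 : y ∈ p '' ball 0 2
    · obtain ⟨z, hz, rfl⟩ := h1
      have hz0 : z ≠ 0 := fun hcon => hy (by rw [hcon])
      obtain ⟨z', hz1, hz2, hz3⟩ := psi_surj hz0 (mem_ball_zero_iff.1 hz)
      have hz4 : p z' ∈ U := by
        rintro ⟨w, hw, hwz⟩
        have h5 := hp.1 (hball hw) (mem_ball_zero_iff.2 hz1) hwz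
        rw [h5, mem_closedBall_zero_iff] at hw
        linarith
      refine ⟨i (p z'), by rw [hfi _ hz4, hφp z' (mem_ball_zero_iff.2 hz1), hz3], ?_⟩
      intro x' hx'
      by_cases h2 : x' ∈ i '' U
      · obtain ⟨y', hy', rfl⟩ := h2
        rw [hfi _ hy'] at hx'
        by_cases h3 : y' ∈ p '' ball 0 2
        · obtain ⟨w, hw, rfl⟩ := h3
          rw [hφp w hw] at hx'
          have h4 : psi w = z := hp.1 (mem_ball_zero_iff.2
            ((psi_le w).trans_lt (mem_ball_zero_iff.1 hw))) hz hx'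
          have h5 : w = z' := psi_inj (h4.trans hz3.symm) (by rw [h4]; exact hz0)
          rw [h5]
        · rw [hφo _ h3] at hx'
          exact absurd ⟨z, hz, hx'.symm⟩ h3
      · rw [hfo _ h2] at hx'
        exact absurd hx'.symm hy
    · have h2 : y ∈ U := fun hcon => h1 (image_mono hball hcon)
      refine ⟨i y, by rw [hfi y h2, hφo y h1], ?_⟩
      intro x' hx'
      by_cases h3 : x' ∈ i '' U
      · obtain ⟨y', hy', rfl⟩ := h3
        rw [hfi _ hy'] at hx'
        by_cases h4 : y' ∈ p '' ball 0 2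
        · obtain ⟨w, hw, rfl⟩ := h4
          rw [hφp w hw] at hx'
          exact absurd ⟨psi w, mem_ball_zero_iff.2
            ((psi_le w).trans_lt (mem_ball_zero_iff.1 hw)), hx'⟩ h1
        · rw [hφo _ h4] at hx'
          rw [hx']
      · rw [hfo _ h3] at hx'
        exact absurd hx'.symm hy

end Pool.Agent.L0h29.CS
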