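import Pool.Agent.L0h29.CS.Step
import Pool.Agent.N550.KH.Zero

/-!
# Project CS: the theorem
-/

set_option autoImplicit false
set_option linter.unusedSectionVars false

open Set Filter Topology Metric Function MeasureTheory
open scoped Manifold ContDiff

noncomputable section

namespace Pool.Agent.L0h29.CS

open Pool.Agent.Y522 Pool.Agent.N550.KH Pool.Agent.N550.KH.One

section

variable {n : ℕ} {M N : Type} [TopologicalSpace M] [CompactSpace M] [T2Space M]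
  [ChartedSpace (E n) M] [IsManifold (𝓡 n) ∞ M]
  [TopologicalSpace N] [CompactSpace N] [T2Space N] [ChartedSpace (E n) N]
  [IsManifold (𝓡 n) ∞ N]

/-- the set of the points over which the map is a local diffeomorphism off `Z` -/
def good (n : ℕ) {M N : Type} [TopologicalSpace M] [ChartedSpace (E n) M]
    [TopologicalSpace N] [ChartedSpace (E n) N] (f : M → N) (Z : Set N) : Set N :=
  f '' {x | LD n f x ∧ f x ∉ Z}

theorem isOpen_good {f : M → N} {Z : Set N} (h : Inv n f Z) : IsOpen (good n f Z) :=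
  h.isOpen_image ((Fin'.isOpen_ld (n := n) f).inter (h.closed.isOpen_compl.preimage h.cont))
    (fun _ hx => hx.2)

theorem mem_good {f : M → N} {Z : Set N} (h : Inv n f Z) {y : N} (hy : y ∉ Z)
    (hld : ∀ x, f x = y → LD n f x) : y ∈ good n f Z := by
  obtain ⟨x, hx, -, -⟩ := h.good y hy
  exact ⟨x, ⟨hld x hx, by rw [hx]; exact hy⟩, hx⟩

theorem good_notMem {f : M → N} {Z : Set N} {y : N} (hy : y ∈ good n f Z) : y ∉ Z := by
  obtain ⟨x, ⟨-, hx⟩, rfl⟩ := hy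
  exact hx

theorem good_ld {f : M → N} {Z : Set N} (h : Inv n f Z) {x : M} (hx : f x ∈ good n f Z) :
    LD n f x := by
  obtain ⟨x', ⟨h1, h2⟩, h3⟩ := hx
  have := h.inj h2 h3
  rw [← this]; exact h1

/-- compression -/
theorem compress {f : M → N} {Z : Set N} (h : Inv n f Z) {κ : N → N} (hκ : IsDf n κ)
    {A : Set N} (hA : A ⊆ κ '' good n f Z) :
    Inv n (fun x => κ (f x)) (κ '' Z) ∧ (∀ x, κ (f x) ∈ A → LD n (fun x => κ (f x)) x) ∧
      (∀ y ∈ A, y ∉ κ '' Z) ∧ (Bijective f → Bijective (fun x => κ (f x))) := by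
  refine ⟨h.comp hκ, fun x hx => ?_, fun y hy => ?_, fun hb => hκ.1.comp hb⟩
  · obtain ⟨y, hy, hyx⟩ := hA hx
    have h1 : y = f x := hκ.1.1 hyx
    rw [h1] at hy
    exact LD.comp_fun (g := κ) (f := f) (hκ.2 _) (good_ld h hy)
  · rintro ⟨w, hw, hwy⟩
    obtain ⟨y', hy', hyy⟩ := hA hy
    have h1 : y' = w := hκ.1.1 (hyy.trans hwy.symm)
    rw [h1] at hy'
    exact good_notMem hy' hw

/-- Step 0 -/
theorem zeroStep (hn : 2 ≤ n) {f : M → N} {Z : Set N} (h : Inv n f Z) (b : E n → N)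
    (hb : Injective b) (hbl : ∀ z, LD n b z) :
    ∃ (f' : M → N) (Z' : Set N), Inv n f' Z' ∧ (∀ x, f' x ∈ b '' closedBall 0 1 → LD n f' x) ∧
      (∀ y ∈ b '' closedBall 0 1, y ∉ Z') ∧ (Bijective f → Bijective f') := by
  obtain ⟨z, hz, hzZ⟩ : ∃ z ∈ ball (0 : E n) 1, b z ∉ Z := by
    by_contra hcon
    push Not at hcon
    have h1 : volume (ball (0 : E n) 1) = 0 :=
      measure_mono_null hcon (volume_null hn (h.null b hb hbl))
    exact (isOpen_ball.measure_pos volume ⟨0, mem_ball_self one_pos⟩).ne' h1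
  obtain ⟨x₀, hfx₀, hx₀s, hx₀u⟩ := h.good _ hzZ
  have hball : IsOpen (b '' ball (0 : E n) 1) := isOpen_image_of_LD isOpen_ball fun x _ => hbl x
  have h2 : ∀ᶠ y in 𝓝 x₀, f y ∈ b '' ball (0 : E n) 1 := by
    apply h.cont.continuousAt
    rw [hfx₀]
    exact hball.mem_nhds ⟨z, hz, rfl⟩
  have h3 : ∀ᶠ y in 𝓝 x₀, f y ∉ Z := by
    have h4 : Zᶜ ∈ 𝓝 (f x₀) := by
      rw [hfx₀]
      exact h.closed.isOpen_compl.mem_nhds hzZ
    exact h.cont.continuousAt h4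
  obtain ⟨W, hW, hWo, hxW⟩ := eventually_nhds_iff.1 (hx₀s.and (h2.and h3))
  have hinv : ∀ w, invFun b (b w) = w := leftInverse_invFun hb
  have hinvl : ∀ w, LD n (invFun b) (b w) := fun w =>
    LD.inverse isOpen_univ (fun z _ => hbl z) (fun z _ => hinv z) (mem_univ w)
  obtain ⟨x₁, hx₁, hld⟩ := Pool.Agent.N550.SH.exists_ld (fun x => invFun b (f x)) W hWo x₀ hxW
    (by
      intro x hx
      obtain ⟨h3, ⟨w, -, hw⟩, -⟩ := hW x hx
      refine ContMDiffAt.comp (g := invFun b) x ?_ h3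
      rw [← hw]
      exact (hinvl w).contMDiffAt)
    (by
      intro V hV hVo
      have h3 : (fun x => invFun b (f x)) '' V = invFun b '' (f '' V) := by
        rw [image_image]
      rw [h3]
      refine isOpen_image_of_LD (n := n)
        (h.isOpen_image hVo (fun x hx => (hW x (hV hx)).2.2)) ?_
      rintro _ ⟨x, hx, rfl⟩
      obtain ⟨-, ⟨w, -, hw⟩, -⟩ := hW x (hV hx)
      rw [← hw]
      exact hinvl w)
  obtain ⟨-, ⟨z₀, -, hz₀⟩, hx₁Z⟩ := hW x₁ hx₁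
  have hldf : LD n f x₁ := by
    have h3 : LD n (fun x => b (invFun b (f x))) x₁ :=
      LD.comp_fun (g := b) (f := fun x => invFun b (f x)) (hbl _) hld
    refine LD.congr h3 ?_
    filter_upwards [hWo.mem_nhds hx₁] with y hy
    obtain ⟨-, ⟨w, -, hw⟩, -⟩ := hW y hy
    rw [← hw, hinv]
  have h6 : b ⁻¹' good n f Z ∈ 𝓝 z₀ := by
    apply (hbl z₀).continuousAt
    refine (isOpen_good h).mem_nhds ?_
    rw [hz₀]
    exact ⟨x₁, ⟨hldf, hx₁Z⟩, rfl⟩
  obtain ⟨ε, hε, hεb⟩ := Metric.mem_nhds_iff.1 h6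
  obtain ⟨κ, hκ, hκs, hκb⟩ := Shift.main.2.2 n z₀ ε 1 hε
  obtain ⟨K, hK, hKb, -⟩ := Supp.main n N b hb hbl κ hκ hκs
  obtain ⟨h7, h8, h9, h10⟩ := compress h hK (A := b '' closedBall 0 1) (by
    rintro _ ⟨z, hz, rfl⟩
    obtain ⟨w, hw, rfl⟩ := hκb hz
    exact ⟨b w, hεb hw, hKb w⟩)
  exact ⟨_, _, h7, h8, h9, h10⟩

end

/-- The theorem. -/
theorem main (M N : Type) [TopologicalSpace M] [CompactSpace M] [T2Space M] [ChartedSpace (E 4) M]
    [IsManifold (𝓡 4) ∞ M] [TopologicalSpace N] [CompactSpace N] [T2Space N]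
    [ChartedSpace (E 4) N] [IsManifold (𝓡 4) ∞ N] (a d : ℕ) (b : E 4 → N)
    (l : Fin a → E (1 + 3) → N) (K : Set N) (h : Fin d → E (2 + 2) → N) (c : E 4 → N)
    (H : Pool.Agent.N550.TS.Handles2 N a d b l K h c) (f : M → N) (Z : Set N)
    (hf : Inv 4 f Z) :
    ∃ (G : M → N) (Z' : Set N) (R : ℝ), 0 < R ∧ Inv 4 G Z' ∧
      (∀ y, y ∉ c '' closedBall 0 R → y ∉ Z' ∧ ∀ x, G x = y → LD 4 G x) ∧
      (Bijective f → Bijective G) := by
  obtain ⟨f1, Z1, hi1, hl1, hd1, hb1⟩ := zeroStep (n := 4) (by norm_num) hf b H.b_inj H.b_ld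
  -- the 1-handles
  have step1 : ∀ j : ℕ, j ≤ a → ∃ (f2 : M → N) (Z2 : Set N), Inv 4 f2 Z2 ∧
      (∀ x, f2 x ∈ b '' closedBall 0 1 ∪ (⋃ (i : Fin a) (_ : (i : ℕ) < j),
        l i '' {z | vp 1 3 z = 0 ∧ ‖up 1 3 z‖ ≤ 1}) → LD 4 f2 x) ∧
      (∀ y ∈ b '' closedBall 0 1 ∪ (⋃ (i : Fin a) (_ : (i : ℕ) < j),
        l i '' {z | vp 1 3 z = 0 ∧ ‖up 1 3 z‖ ≤ 1}), y ∉ Z2) ∧ (Bijective f → Bijective f2) := by
    intro j
    induction j with
    | zero =>
      intro _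
      refine ⟨f1, Z1, hi1, fun x hx => ?_, fun y hy => ?_, hb1⟩
      · rcases hx with hx | hx
        · exact hl1 x hx
        · simp at hx
      · rcases hy with hy | hy
        · exact hd1 y hy
        · simp at hy
    | succ j ih =>
      intro hj
      obtain ⟨f2, Z2, hi2, hl2, hd2, hb2⟩ := ih (by omega)
      obtain ⟨f3, Z3, hi3, hl3, hd3, hb3⟩ := step 1 3 (by norm_num) (mdf1 3) M N f2 Z2 hi2
        (l ⟨j, by omega⟩) _ (H.l_inj _) (H.l_ld _) (fun z => by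
          rw [← H.l_att ⟨j, by omega⟩ z]
          constructor
          · rintro (hz | hz)
            · exact hz
            · obtain ⟨i, hi, w, -, hw⟩ := mem_iUnion₂.1 hz
              refine absurd hw.symm (H.l_dis _ _ z w ?_)
              intro hcon
              rw [← hcon] at hi
              exact absurd hi (by simp)
          · exact fun hz => Or.inl hz) hl2 hd2
      have hsub : ∀ y, y ∈ b '' closedBall 0 1 ∪ (⋃ (i : Fin a) (_ : (i : ℕ) < j + 1),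
          l i '' {z | vp 1 3 z = 0 ∧ ‖up 1 3 z‖ ≤ 1}) →
          y ∈ (b '' closedBall 0 1 ∪ (⋃ (i : Fin a) (_ : (i : ℕ) < j),
          l i '' {z | vp 1 3 z = 0 ∧ ‖up 1 3 z‖ ≤ 1})) ∪
          l ⟨j, by omega⟩ '' {z | vp 1 3 z = 0 ∧ ‖up 1 3 z‖ ≤ 1} := by
        intro y hy
        rcases hy with hy | hy
        · exact Or.inl (Or.inl hy)
        · obtain ⟨i, hi, w, hw, hwx⟩ := mem_iUnion₂.1 hy
          rcases Nat.lt_succ_iff_lt_or_eq.1 hi with h1 | h1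
          · exact Or.inl (Or.inr (mem_iUnion₂.2 ⟨i, h1, w, hw, hwx⟩))
          · refine Or.inr ⟨w, hw, ?_⟩
            have : i = ⟨j, by omega⟩ := Fin.ext h1
            rw [← this]
            exact hwx
      exact ⟨f3, Z3, hi3, fun x hx => hl3 x (hsub _ hx), fun y hy => hd3 y (hsub _ hy),
        fun hb => hb3 (hb2 hb)⟩
  obtain ⟨f2, Z2, hi2, hl2, hd2, hb2⟩ := step1 a le_rfl
  have hsub2 : b '' closedBall 0 1 ∪ (⋃ i, l i '' {z | vp 1 3 z = 0 ∧ ‖up 1 3 z‖ ≤ 1}) ⊆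
      b '' closedBall 0 1 ∪ (⋃ (i : Fin a) (_ : (i : ℕ) < a),
        l i '' {z | vp 1 3 z = 0 ∧ ‖up 1 3 z‖ ≤ 1}) := by
    intro y hy
    rcases hy with hy | hy
    · exact Or.inl hy
    · obtain ⟨i, hi⟩ := mem_iUnion.1 hy
      exact Or.inr (mem_iUnion₂.2 ⟨i, i.2, hi⟩)
  -- the compression
  obtain ⟨κ, hκ, hKκ⟩ := H.K_cmp _ (isOpen_good hi2) (fun y hy =>
    mem_good hi2 (hd2 y (hsub2 hy)) (fun x hx => hl2 x (by rw [hx]; exact hsub2 hy)))
  obtain ⟨hi3, hl3, hd3, hb3⟩ := compress hi2 hκ hKκ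
  -- the 2-handles
  have step2 : ∀ j : ℕ, j ≤ d → ∃ (f4 : M → N) (Z4 : Set N), Inv 4 f4 Z4 ∧
      (∀ x, f4 x ∈ K ∪ (⋃ (i : Fin d) (_ : (i : ℕ) < j),
        h i '' {z | vp 2 2 z = 0 ∧ ‖up 2 2 z‖ ≤ 1}) → LD 4 f4 x) ∧
      (∀ y ∈ K ∪ (⋃ (i : Fin d) (_ : (i : ℕ) < j),
        h i '' {z | vp 2 2 z = 0 ∧ ‖up 2 2 z‖ ≤ 1}), y ∉ Z4) ∧ (Bijective f → Bijective f4) := by
    intro j
    induction j with
    | zero =>
      intro _
      refine ⟨_, _, hi3, fun x hx => ?_, fun y hy => ?_, fun hb => hb3 (hb2 hb)⟩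
      · rcases hx with hx | hx
        · exact hl3 x hx
        · simp at hx
      · rcases hy with hy | hy
        · exact hd3 y hy
        · simp at hy
    | succ j ih =>
      intro hj
      obtain ⟨f4, Z4, hi4, hl4, hd4, hb4⟩ := ih (by omega)
      obtain ⟨f5, Z5, hi5, hl5, hd5, hb5⟩ := step 2 2 (by norm_num) (mdf2 2) M N f4 Z4 hi4
        (h ⟨j, by omega⟩) _ (H.h_inj _) (H.h_ld _) (fun z => by
          rw [← H.h_att ⟨j, by omega⟩ z]
          constructor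
          · rintro (hz | hz)
            · exact hz
            · obtain ⟨i, hi, w, -, hw⟩ := mem_iUnion₂.1 hz
              refine absurd hw.symm (H.h_dis _ _ z w ?_)
              intro hcon
              rw [← hcon] at hi
              exact absurd hi (by simp)
          · exact fun hz => Or.inl hz) hl4 hd4
      have hsub : ∀ y, y ∈ K ∪ (⋃ (i : Fin d) (_ : (i : ℕ) < j + 1),
          h i '' {z | vp 2 2 z = 0 ∧ ‖up 2 2 z‖ ≤ 1}) →
          y ∈ (K ∪ (⋃ (i : Fin d) (_ : (i : ℕ) < j),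
          h i '' {z | vp 2 2 z = 0 ∧ ‖up 2 2 z‖ ≤ 1})) ∪
          h ⟨j, by omega⟩ '' {z | vp 2 2 z = 0 ∧ ‖up 2 2 z‖ ≤ 1} := by
        intro y hy
        rcases hy with hy | hy
        · exact Or.inl (Or.inl hy)
        · obtain ⟨i, hi, w, hw, hwx⟩ := mem_iUnion₂.1 hy
          rcases Nat.lt_succ_iff_lt_or_eq.1 hi with h1 | h1
          · exact Or.inl (Or.inr (mem_iUnion₂.2 ⟨i, h1, w, hw, hwx⟩))
          · refine Or.inr ⟨w, hw, ?_⟩
            have : i = ⟨j, by omega⟩ := Fin.ext h1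
            rw [← this]
            exact hwx
      exact ⟨f5, Z5, hi5, fun x hx => hl5 x (hsub _ hx), fun y hy => hd5 y (hsub _ hy),
        fun hb => hb5 (hb4 hb)⟩
  obtain ⟨f4, Z4, hi4, hl4, hd4, hb4⟩ := step2 d le_rfl
  have hsub4 : K ∪ (⋃ i, h i '' {z | vp 2 2 z = 0 ∧ ‖up 2 2 z‖ ≤ 1}) ⊆
      K ∪ (⋃ (i : Fin d) (_ : (i : ℕ) < d),
        h i '' {z | vp 2 2 z = 0 ∧ ‖up 2 2 z‖ ≤ 1}) := by
    intro y hy
    rcases hy with hy | hy
    · exact Or.inl hy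
    · obtain ⟨i, hi⟩ := mem_iUnion.1 hy
      exact Or.inr (mem_iUnion₂.2 ⟨i, i.2, hi⟩)
  -- the second compression
  obtain ⟨κ₂, hκ₂, hcκ⟩ := H.c_cmp _ (isOpen_good hi4) (fun y hy =>
    mem_good hi4 (hd4 y (hsub4 hy)) (fun x hx => hl4 x (by rw [hx]; exact hsub4 hy)))
  obtain ⟨hi5, hl5, hd5, hb5⟩ := compress hi4 hκ₂ hcκ
  set G : M → N := fun x => κ₂ (f4 x) with hG
  -- the radius
  have hcpt : IsCompact (good 4 G (κ₂ '' Z4))ᶜ := (isOpen_good hi5).isClosed_compl.isCompact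
  have hcl : Continuous c := continuous_iff_continuousAt.2 fun z => (H.c_ld z).continuousAt
  have hcov : (good 4 G (κ₂ '' Z4))ᶜ ⊆ ⋃ i : ℕ, c '' ball 0 (i : ℝ) := by
    intro y hy
    have h1 : y ∈ range c := by
      by_contra hcon
      exact hy (mem_good hi5 (hd5 y hcon) (fun x hx => hl5 x (by
        show G x ∈ _
        rw [hx]; exact hcon)))
    obtain ⟨z, rfl⟩ := h1
    obtain ⟨i, hi⟩ := exists_nat_gt ‖z‖
    exact mem_iUnion.2 ⟨i, z, mem_ball_zero_iff.2 hi, rfl⟩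
  obtain ⟨i, hi⟩ := hcpt.elim_directed_cover _
    (fun i => isOpen_image_of_LD (n := 4) isOpen_ball fun z _ => H.c_ld z) hcov
    (directed_of_isDirected_le (fun i j hij => image_mono (ball_subset_ball (by exact_mod_cast hij))))
  refine ⟨G, _, (i : ℝ) + 1, by positivity, hi5, fun y hy => ?_, fun hb => hb5 (hb4 hb)⟩
  have hyg : y ∈ good 4 G (κ₂ '' Z4) := by
    by_contra hcon
    obtain ⟨z, hz, hzy⟩ := hi hcon
    refine hy ⟨z, ?_, hzy⟩
    rw [mem_closedBall_zero_iff]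
    have := mem_ball_zero_iff.1 hz
    linarith
  refine ⟨good_notMem hyg, fun x hx => good_ld hi5 ?_⟩
  rw [hx]; exact hyg

end Pool.Agent.L0h29.CS
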