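import Pool.Agent.N550.KH.Stm
import Pool.Agent.Y522.Tools

/-!
# Project CS: squeezing a handle to a neighbourhood of its core disc
-/

set_option autoImplicit false

open Set Filter Topology Metric Function MeasureTheory
open scoped Manifold ContDiff

noncomputable section

namespace Pool.Agent.L0h29.CS.Sqz

open Pool.Agent.Y522 Pool.Agent.N550.KH

/-- a smooth map with a differentiable left inverse is a local diffeomorphism -/
theorem ld_of_left_inverse {n : ℕ} {f g : E n → E n} {x : E n}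
    (hf : ∀ᶠ y in 𝓝 x, ContDiffAt ℝ ∞ f y) (hg : DifferentiableAt ℝ g (f x))
    (hgf : ∀ᶠ y in 𝓝 x, g (f y) = y) : LD n f x := by
  have hfd : DifferentiableAt ℝ f x := hf.self_of_nhds.differentiableAt (by simp)
  have h1 : (fderiv ℝ g (f x)).comp (fderiv ℝ f x) = ContinuousLinearMap.id ℝ (E n) := by
    rw [← fderiv_comp x hg hfd]
    have h2 : (g ∘ f) =ᶠ[𝓝 x] fun y => y := hgf
    rw [h2.fderiv_eq]
    exact fderiv_fun_id
  have hinj : Injective (fderiv ℝ f x) := by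
    intro u v huv
    have h2 := DFunLike.congr_fun h1 u
    have h3 := DFunLike.congr_fun h1 v
    simp only [ContinuousLinearMap.comp_apply, ContinuousLinearMap.id_apply] at h2 h3
    rw [← h2, ← h3, huv]
  let A : E n ≃L[ℝ] E n := (LinearEquiv.ofInjectiveEndo
    (fderiv ℝ f x : E n →ₗ[ℝ] E n) hinj).toContinuousLinearEquiv
  refine LD_of_contDiffAt hf A ?_
  have hA : (A : E n →L[ℝ] E n) = fderiv ℝ f x := by
    ext u
    rfl
  rw [hA]
  exact hfd.hasFDerivAt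

/-- the diffeomorphism onto the unit ball -/
def bb (m : ℕ) (x : E m) : E m := OpenPartialHomeomorph.univUnitBall x

def bi (m : ℕ) (x : E m) : E m := OpenPartialHomeomorph.univUnitBall.symm x

theorem bb_eq (m : ℕ) (x : E m) : bb m x = (√(1 + ‖x‖ ^ 2))⁻¹ • x := rfl

theorem bb_smooth (m : ℕ) : ContDiff ℝ ∞ (bb m) :=
  OpenPartialHomeomorph.contDiff_univUnitBall

theorem bi_smooth (m : ℕ) : ContDiffOn ℝ ∞ (bi m) (ball 0 1) :=
  OpenPartialHomeomorph.contDiffOn_univUnitBall_symm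

theorem bb_mem (m : ℕ) (x : E m) : ‖bb m x‖ < 1 := by
  have h := OpenPartialHomeomorph.univUnitBall.map_source (x := x)
    (by rw [OpenPartialHomeomorph.univUnitBall_source]; trivial)
  rw [OpenPartialHomeomorph.univUnitBall_target] at h
  exact mem_ball_zero_iff.1 h

theorem bi_bb (m : ℕ) (x : E m) : bi m (bb m x) = x :=
  OpenPartialHomeomorph.univUnitBall.left_inv
    (by rw [OpenPartialHomeomorph.univUnitBall_source]; trivial)

theorem bb_bi (m : ℕ) (x : E m) (hx : ‖x‖ < 1) : bb m (bi m x) = x :=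
  OpenPartialHomeomorph.univUnitBall.right_inv
    (by rw [OpenPartialHomeomorph.univUnitBall_target]; exact mem_ball_zero_iff.2 hx)

theorem bb_eq_zero (m : ℕ) (x : E m) : bb m x = 0 ↔ x = 0 := by
  rw [bb_eq, smul_eq_zero]
  constructor
  · rintro (h | h)
    · exfalso
      have : 0 < √(1 + ‖x‖ ^ 2) := Real.sqrt_pos.2 (by positivity)
      exact (inv_pos.2 this).ne' h
    · exact h
  · exact fun h => Or.inr h

theorem norm_bb_sq (m : ℕ) (x : E m) : ‖bb m x‖ ^ 2 = ‖x‖ ^ 2 / (1 + ‖x‖ ^ 2) := by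
  rw [bb_eq, norm_smul, mul_pow, Real.norm_eq_abs, sq_abs, inv_pow, Real.sq_sqrt (by positivity)]
  field_simp

theorem one_le_bb (m : ℕ) (x : E m) : 1 ≤ ‖√2 • bb m x‖ ↔ 1 ≤ ‖x‖ := by
  rw [← one_le_sq_iff₀ (norm_nonneg (√2 • bb m x)), ← one_le_sq_iff₀ (norm_nonneg x), norm_smul,
    mul_pow, norm_bb_sq, Real.norm_eq_abs, sq_abs, Real.sq_sqrt (by norm_num)]
  have h1 : 0 < 1 + ‖x‖ ^ 2 := by positivity
  rw [← mul_div_assoc, le_div_iff₀ h1]
  constructor <;> intro h <;> linarith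

theorem sqrt_two_lt : √2 < 3 / 2 := by
  rw [Real.sqrt_lt' (by norm_num)]
  norm_num

theorem contDiff_jn (m k : ℕ) {X : Type} [NormedAddCommGroup X] [NormedSpace ℝ X] {s : Set X}
    {u : X → E m} {v : X → E k} (hu : ContDiffOn ℝ ∞ u s) (hv : ContDiffOn ℝ ∞ v s) :
    ContDiffOn ℝ ∞ (fun x => jn m k (u x) (v x)) s := by
  rw [contDiffOn_euclidean] at hu hv ⊢
  intro i
  refine Fin.addCases (fun i => ?_) (fun i => ?_) i
  · refine (hu i).congr fun x _ => ?_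
    simp [jn]
  · refine (hv i).congr fun x _ => ?_
    simp [jn]

/-- the squeeze -/
def tau (m k : ℕ) (ε : ℝ) (z : E (m + k)) : E (m + k) :=
  jn m k (√2 • bb m (up m k z)) (ε • bb k (vp m k z))

def taui (m k : ℕ) (ε : ℝ) (z : E (m + k)) : E (m + k) :=
  jn m k (bi m ((√2)⁻¹ • up m k z)) (bi k (ε⁻¹ • vp m k z))

theorem up_tau (m k : ℕ) (ε : ℝ) (z : E (m + k)) :
    up m k (tau m k ε z) = √2 • bb m (up m k z) := by rw [tau, up_jn]

theorem vp_tau (m k : ℕ) (ε : ℝ) (z : E (m + k)) :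
    vp m k (tau m k ε z) = ε • bb k (vp m k z) := by rw [tau, vp_jn]

theorem taui_tau (m k : ℕ) {ε : ℝ} (hε : 0 < ε) (z : E (m + k)) :
    taui m k ε (tau m k ε z) = z := by
  rw [taui, up_tau, vp_tau, smul_smul, smul_smul, inv_mul_cancel₀ (Real.sqrt_pos.2 two_pos).ne',
    inv_mul_cancel₀ hε.ne', one_smul, one_smul, bi_bb, bi_bb, jn_up_vp]

theorem tau_inj (m k : ℕ) {ε : ℝ} (hε : 0 < ε) : Injective (tau m k ε) :=
  Function.LeftInverse.injective (g := taui m k ε) (taui_tau m k hε)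

theorem tau_smooth (m k : ℕ) (ε : ℝ) : ContDiff ℝ ∞ (tau m k ε) := by
  rw [← contDiffOn_univ]
  have h1 : ContDiff ℝ ∞ (fun z : E (m + k) => bb m (up m k z)) :=
    (bb_smooth m).comp (up m k).contDiff
  have h2 : ContDiff ℝ ∞ (fun z : E (m + k) => bb k (vp m k z)) :=
    (bb_smooth k).comp (vp m k).contDiff
  have h3 : ContDiff ℝ ∞ (fun z : E (m + k) => √2 • bb m (up m k z)) := h1.const_smul _
  have h4 : ContDiff ℝ ∞ (fun z : E (m + k) => ε • bb k (vp m k z)) := h2.const_smul _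
  exact contDiff_jn m k (s := univ) h3.contDiffOn h4.contDiffOn

theorem tau_ld (m k : ℕ) {ε : ℝ} (hε : 0 < ε) (z : E (m + k)) : LD (m + k) (tau m k ε) z := by
  refine ld_of_left_inverse (g := taui m k ε)
    (Eventually.of_forall fun y => (tau_smooth m k ε).contDiffAt) ?_
    (Eventually.of_forall fun y => taui_tau m k hε y)
  have ho : IsOpen {w : E (m + k) | ‖(√2)⁻¹ • up m k w‖ < 1 ∧ ‖ε⁻¹ • vp m k w‖ < 1} := by
    have c1 : Continuous fun w : E (m + k) => ‖(√2)⁻¹ • up m k w‖ := by fun_prop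
    have c2 : Continuous fun w : E (m + k) => ‖ε⁻¹ • vp m k w‖ := by fun_prop
    exact (isOpen_lt c1 continuous_const).inter (isOpen_lt c2 continuous_const)
  have hmem : tau m k ε z ∈ {w : E (m + k) | ‖(√2)⁻¹ • up m k w‖ < 1 ∧ ‖ε⁻¹ • vp m k w‖ < 1} := by
    constructor
    · rw [up_tau, smul_smul, inv_mul_cancel₀ (Real.sqrt_pos.2 two_pos).ne', one_smul]
      exact bb_mem _ _
    · rw [vp_tau, smul_smul, inv_mul_cancel₀ hε.ne', one_smul]
      exact bb_mem _ _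
  have h1 : ContDiffOn ℝ ∞ (taui m k ε)
      {w : E (m + k) | ‖(√2)⁻¹ • up m k w‖ < 1 ∧ ‖ε⁻¹ • vp m k w‖ < 1} := by
    have h5 : ContDiff ℝ ∞ (fun w : E (m + k) => (√2)⁻¹ • up m k w) :=
      (up m k).contDiff.const_smul _
    have h6 : ContDiff ℝ ∞ (fun w : E (m + k) => ε⁻¹ • vp m k w) :=
      (vp m k).contDiff.const_smul _
    have h7 : ContDiffOn ℝ ∞ (fun w : E (m + k) => bi m ((√2)⁻¹ • up m k w))
        {w : E (m + k) | ‖(√2)⁻¹ • up m k w‖ < 1 ∧ ‖ε⁻¹ • vp m k w‖ < 1} :=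
      (bi_smooth m).comp h5.contDiffOn (fun w hw => mem_ball_zero_iff.2 hw.1)
    have h8 : ContDiffOn ℝ ∞ (fun w : E (m + k) => bi k (ε⁻¹ • vp m k w))
        {w : E (m + k) | ‖(√2)⁻¹ • up m k w‖ < 1 ∧ ‖ε⁻¹ • vp m k w‖ < 1} :=
      (bi_smooth k).comp h6.contDiffOn (fun w hw => mem_ball_zero_iff.2 hw.2)
    exact contDiff_jn m k h7 h8
  exact (h1.contDiffAt (ho.mem_nhds hmem)).differentiableAt (by simp)

theorem tau_up (m k : ℕ) (ε : ℝ) (z : E (m + k)) : ‖up m k (tau m k ε z)‖ < 3 / 2 := by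
  rw [up_tau, norm_smul, Real.norm_of_nonneg (Real.sqrt_nonneg _)]
  have h1 := bb_mem m (up m k z)
  have h2 := sqrt_two_lt
  have h3 : 0 ≤ √2 := Real.sqrt_nonneg 2
  nlinarith [norm_nonneg (bb m (up m k z))]

theorem tau_vp (m k : ℕ) {ε : ℝ} (hε : 0 < ε) (z : E (m + k)) : ‖vp m k (tau m k ε z)‖ < ε := by
  rw [vp_tau, norm_smul, Real.norm_of_nonneg hε.le]
  have h1 := bb_mem k (vp m k z)
  nlinarith [norm_nonneg (bb k (vp m k z))]

theorem tau_one (m k : ℕ) (ε : ℝ) (z : E (m + k)) :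
    1 ≤ ‖up m k (tau m k ε z)‖ ↔ 1 ≤ ‖up m k z‖ := by
  rw [up_tau, one_le_bb]

theorem tau_zero (m k : ℕ) {ε : ℝ} (hε : 0 < ε) (z : E (m + k)) :
    vp m k (tau m k ε z) = 0 ↔ vp m k z = 0 := by
  rw [vp_tau, smul_eq_zero, bb_eq_zero]
  constructor
  · rintro (h | h)
    · exact absurd h hε.ne'
    · exact h
  · exact fun h => Or.inr h

theorem tau_core (m k : ℕ) {ε : ℝ} (hε : 0 < ε) (z : E (m + k)) (h0 : vp m k z = 0)
    (h1 : ‖up m k z‖ ≤ 1) : ∃ w, tau m k ε w = z ∧ vp m k w = 0 ∧ ‖up m k w‖ ≤ 1 := by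
  have h2 : (1 : ℝ) < √2 := by
    rw [Real.lt_sqrt (by norm_num)]; norm_num
  have h3 : ‖(√2)⁻¹ • up m k z‖ < 1 := by
    rw [norm_smul, norm_inv, Real.norm_of_nonneg (Real.sqrt_nonneg _)]
    rw [inv_mul_lt_iff₀ (by linarith)]
    linarith
  refine ⟨taui m k ε z, ?_, ?_, ?_⟩
  · rw [tau, taui, up_jn, vp_jn, bb_bi _ _ h3, bb_bi, smul_smul, smul_smul,
      mul_inv_cancel₀ (by linarith), mul_inv_cancel₀ hε.ne', one_smul, one_smul, jn_up_vp]
    rw [h0, smul_zero, norm_zero]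
    exact one_pos
  · rw [taui, vp_jn, h0, smul_zero]
    rw [← bb_eq_zero, bb_bi _ _ (by rw [norm_zero]; exact one_pos)]
  · rw [taui, up_jn]
    have h4 : ‖√2 • bb m (bi m ((√2)⁻¹ • up m k z))‖ ≤ 1 := by
      rw [bb_bi _ _ h3, smul_smul, mul_inv_cancel₀ (by linarith), one_smul]
      exact h1
    rw [← sq_le_one_iff₀ (norm_nonneg _), norm_smul, mul_pow, norm_bb_sq, Real.norm_eq_abs, sq_abs,
      Real.sq_sqrt (by norm_num), ← mul_div_assoc, div_le_one (by positivity)] at h4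
    rw [← sq_le_one_iff₀ (norm_nonneg _)]
    linarith

end Pool.Agent.L0h29.CS.Sqz
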