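import Pool.Agent.N550.KH.Shift
import Pool.Agent.N550.KH.Supp
import Pool.Agent.L0h29.CS.Inv
import Pool.Agent.L0h29.CS.Sqz

/-!
# Project CS: the position of a handle
-/

set_option autoImplicit false

open Set Filter Topology Metric Function MeasureTheory
open scoped Manifold ContDiff

noncomputable section

namespace Pool.Agent.L0h29.CS

open Pool.Agent.Y522 Pool.Agent.N550.KH Pool.Agent.N550.KH.One

/-- a handle is moved by a vertical shift such that its core disc is disjoint from the exceptional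
set and consists of regular values -/
theorem position (m k : ℕ) (hk : 2 ≤ k) (M N : Type)
    [TopologicalSpace M] [CompactSpace M] [T2Space M]
    [ChartedSpace (E (m + k)) M] [IsManifold (𝓡 (m + k)) ∞ M] [TopologicalSpace N]
    [CompactSpace N] [T2Space N] [ChartedSpace (E (m + k)) N] [IsManifold (𝓡 (m + k)) ∞ N]
    (f : M → N) (Z : Set N) (h : Inv (m + k) f Z) (l : E (m + k) → N) (Y : Set N)
    (hl : Injective l) (hld : ∀ z, LD (m + k) l z)
    (hY : ∀ z, l z ∈ Y ↔ 1 ≤ ‖up m k z‖) :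
    ∃ K : N → N, IsDf (m + k) K ∧ (∀ y, K y ∈ Y ↔ y ∈ Y) ∧
      (∀ z, vp m k z = 0 → ‖up m k z‖ < 2 → l z ∉ K '' Z) ∧
      ∀ x z, K (f x) = l z → vp m k z = 0 → ‖up m k z‖ < 2 →
        Surjective (mfderiv (𝓡 (m + k)) (𝓡 k) (fun y => vp m k (linv l (K (f y)))) x) := by
  classical
  have hsc : SecondCountableTopology M :=
    ChartedSpace.secondCountable_of_sigmaCompact (E (m + k)) M
  let p : M → E k := fun x => if f x ∈ range l then vp m k (linv l (f x)) else 0
  have hpin : ∀ x, f x ∈ range l → p x = vp m k (linv l (f x)) := fun x hx => if_pos hx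
  have hpout : ∀ x, f x ∉ range l → p x = 0 := fun x hx => if_neg hx
  have hro : IsOpen (f ⁻¹' range l) := (open_range hld).preimage h.cont
  let G : Set M := f ⁻¹' range l ∩ f ⁻¹' Zᶜ
  have hG : IsOpen G := hro.inter (h.closed.isOpen_compl.preimage h.cont)
  have hp0 : ∀ x, f x ∈ range l → p =ᶠ[𝓝 x] fun y => vp m k (linv l (f y)) := by
    intro x hx
    filter_upwards [hro.mem_nhds hx] with y hy
    exact hpin y hy
  have hpG : ∀ x ∈ G, ContMDiffAt (𝓡 (m + k)) (𝓡 k) ∞ p x := by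
    rintro x ⟨⟨z, hz⟩, hxZ⟩
    have h1 : Sm (m + k) (fun y => linv l (f y)) x := by
      refine sm_comp (f := f) (g := linv l) (h.sm hxZ) ?_
      rw [← hz]
      exact ld_sm (linv_ld hl hld z)
    have h2 : ContMDiffAt (𝓡 (m + k)) (𝓡 k) ∞ (fun y => vp m k (linv l (f y))) x :=
      (vp m k).contMDiff.contMDiffAt.comp x h1.self_of_nhds
    exact h2.congr_of_eventuallyEq (hp0 x ⟨z, hz⟩)
  let A : Set (E k) := vp m k '' (l ⁻¹' Z) ∪ {0}
  have hA : volume A = 0 := by
    refine measure_union_null (vp_null hk (h.null l hl hld)) ?_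
    refine volume_null hk ?_
    have := Measure.nullSingletonClass_hausdorff (E k) (d := 2) two_pos
    exact measure_singleton _
  have hGA : ∀ x, x ∉ G → p x ∈ A := by
    intro x hx
    by_cases h1 : f x ∈ range l
    · have h2 : f x ∈ Z := by
        by_contra h2
        exact hx ⟨h1, h2⟩
      left
      obtain ⟨z, hz⟩ := h1
      refine ⟨z, ?_, ?_⟩
      · show l z ∈ Z
        rw [hz]; exact h2
      · rw [hpin x ⟨z, hz⟩, ← hz, linv_l hl]
    · right
      exact hpout x h1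
  obtain ⟨ρ, hρ, hVS'⟩ := Shift.main.2.1 m k
  obtain ⟨y0, hy0, hy0A, hreg⟩ := Reg2.main m k M p G hG hpG A hA hGA (ball 0 (min ρ 1)) isOpen_ball
    ⟨0, mem_ball_self (lt_min hρ one_pos)⟩
  rw [mem_ball_zero_iff, lt_min_iff] at hy0
  obtain ⟨hyρ, hy1⟩ := hy0
  obtain ⟨κ, hκ, hκR, hκu, hκv⟩ := hVS' (-y0) (by rwa [norm_neg])
  obtain ⟨K, hK, hKl, hKo⟩ := Supp.main (m + k) N l hl hld κ hκ hκR
  have hr : ∀ w, K w ∈ range l ↔ w ∈ range l := by
    intro w
    constructor
    · rintro ⟨z, hz⟩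
      by_contra hw
      rw [hKo w hw] at hz
      exact hw ⟨z, hz⟩
    · rintro ⟨z, rfl⟩
      rw [hKl]
      exact ⟨_, rfl⟩
  have hkey : ∀ z', vp m k (κ z') = 0 → ‖up m k z'‖ < 2 → vp m k z' = y0 := by
    intro z' h0 h2
    have e3 : vp m k (κ (jn m k (up m k z') y0)) = 0 := by
      rw [hκv _ (by rw [up_jn]; exact h2.le) (by rw [vp_jn]; exact hy1.le), vp_jn]
      exact add_neg_cancel y0
    have e2 : z' = jn m k (up m k z') y0 := by
      apply hκ.1.1
      rw [← jn_up_vp m k (κ z'), ← jn_up_vp m k (κ (jn m k (up m k z') y0)), e3, h0, hκu,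
        hκu, up_jn]
    rw [e2, vp_jn]
  refine ⟨K, hK, ?_, ?_, ?_⟩
  · intro y
    by_cases h2 : y ∈ range l
    · obtain ⟨z, hz⟩ := h2
      rw [← hz, hKl, hY, hκu, hY]
    · rw [hKo _ h2]
  · rintro z h0 h2 ⟨w, hw, hwz⟩
    obtain ⟨z', hz'⟩ : w ∈ range l := (hr w).1 ⟨z, hwz.symm⟩
    rw [← hz', hKl] at hwz
    have h3 : κ z' = z := hl hwz
    have h4 : vp m k z' = y0 := by
      apply hkey
      · rw [h3]; exact h0
      · rw [← hκu, h3]; exact h2
    apply hy0A
    left
    refine ⟨z', ?_, h4⟩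
    show l z' ∈ Z
    rw [hz']; exact hw
  · intro x z hxz h0 h2
    obtain ⟨z', hz'⟩ : f x ∈ range l := (hr _).1 ⟨z, hxz.symm⟩
    have hxr : f x ∈ range l := ⟨z', hz'⟩
    rw [← hz', hKl] at hxz
    have h3 : κ z' = z := hl hxz
    rw [← h3] at h0 h2
    rw [hκu] at h2
    have h4 : vp m k z' = y0 := hkey z' h0 h2
    have h5 : p x = y0 := by rw [hpin x hxr, ← hz', linv_l hl, h4]
    obtain ⟨hxG, hsurj⟩ := hreg x h5
    have hev : (fun y => vp m k (linv l (K (f y)))) =ᶠ[𝓝 x] (fun z : E k => z + -y0) ∘ p := by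
      have hc0 : ContinuousAt (fun y => linv l (f y)) x := by
        refine ContinuousAt.comp (f := f) (g := linv l) ?_ h.cont.continuousAt
        rw [← hz']
        exact (linv_ld hl hld z').continuousAt
      have hcu : ContinuousAt (fun y => ‖up m k (linv l (f y))‖) x :=
        (ContinuousAt.comp (g := up m k) (f := fun y => linv l (f y))
          (up m k).continuous.continuousAt hc0).norm
      have hcv : ContinuousAt (fun y => ‖vp m k (linv l (f y))‖) x :=
        (ContinuousAt.comp (g := vp m k) (f := fun y => linv l (f y))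
          (vp m k).continuous.continuousAt hc0).norm
      have h6 : linv l (f x) = z' := by rw [← hz', linv_l hl]
      have h7 : ‖up m k (linv l (f x))‖ < 2 := by rw [h6]; exact h2
      have h8 : ‖vp m k (linv l (f x))‖ < 1 := by rw [h6, h4]; exact hy1
      filter_upwards [hro.mem_nhds hxr, hcu.eventually (gt_mem_nhds h7),
        hcv.eventually (gt_mem_nhds h8)] with y hy3 hy4 hy5
      show vp m k (linv l (K (f y))) = p y + -y0
      obtain ⟨w, hw⟩ := hy3
      rw [← hw, linv_l hl] at hy4 hy5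
      rw [hpin y ⟨w, hw⟩, ← hw, hKl, linv_l hl, linv_l hl, hκv _ hy4.le hy5.le]
    rw [hev.mfderiv_eq]
    have hpd : MDifferentiableAt (𝓡 (m + k)) (𝓡 k) p x :=
      (hpG x hxG).mdifferentiableAt (by simp)
    have hgd : MDifferentiableAt (𝓡 k) (𝓡 k) (fun z : E k => z + -y0) (p x) :=
      mdifferentiableAt_iff_differentiableAt.2 (by fun_prop)
    rw [mfderiv_comp x hgd hpd]
    have h6 : mfderiv (𝓡 k) (𝓡 k) (fun z : E k => z + -y0) (p x) =
        ContinuousLinearMap.id ℝ (E k) := by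
      rw [mfderiv_eq_fderiv, fderiv_add_const]
      exact fderiv_fun_id
    rw [h6]
    exact hsurj

/-- the handle is squeezed to a neighbourhood of its core disc, disjoint from the exceptional set -/
theorem squeeze (m k : ℕ) (N : Type) [TopologicalSpace N] (l : E (m + k) → N) (Z : Set N)
    (hlc : Continuous l) (hZ : IsClosed Z)
    (hcore : ∀ z, vp m k z = 0 → ‖up m k z‖ < 2 → l z ∉ Z) :
    ∃ ε : ℝ, 0 < ε ∧ ∀ z, l (Sqz.tau m k ε z) ∉ Z := by
  have hcpt : IsCompact {z : E (m + k) | vp m k z = 0 ∧ ‖up m k z‖ ≤ 3 / 2} := by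
    apply Metric.isCompact_of_isClosed_isBounded
    · exact (isClosed_eq (vp m k).continuous continuous_const).inter
        (isClosed_le (up m k).continuous.norm continuous_const)
    · refine (isBounded_closedBall (x := (0 : E (m + k))) (r := 3 / 2)).subset ?_
      rintro z ⟨hz0, hz1⟩
      rw [mem_closedBall_zero_iff]
      have h1 : ‖z‖ ^ 2 = ‖up m k z‖ ^ 2 + ‖vp m k z‖ ^ 2 := by
        rw [EuclideanSpace.norm_sq_eq, EuclideanSpace.norm_sq_eq, EuclideanSpace.norm_sq_eq,
          Fin.sum_univ_add]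
        rfl
      rw [hz0, norm_zero] at h1
      nlinarith [norm_nonneg z, norm_nonneg (up m k z)]
  have hopen : IsOpen (l ⁻¹' Zᶜ) := hZ.isOpen_compl.preimage hlc
  obtain ⟨ε, hε, hsub⟩ := hcpt.exists_thickening_subset_open hopen (fun z hz =>
    hcore z hz.1 (by linarith [hz.2]))
  refine ⟨ε, hε, fun z => ?_⟩
  apply hsub
  rw [mem_thickening_iff]
  refine ⟨jn m k (up m k (Sqz.tau m k ε z)) 0, ⟨by rw [vp_jn], by
    rw [up_jn]; exact (Sqz.tau_up m k ε z).le⟩, ?_⟩
  have h1 : dist (Sqz.tau m k ε z) (jn m k (up m k (Sqz.tau m k ε z)) 0) ^ 2 =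
      ‖vp m k (Sqz.tau m k ε z)‖ ^ 2 := by
    rw [dist_eq_norm, EuclideanSpace.norm_sq_eq, EuclideanSpace.norm_sq_eq, Fin.sum_univ_add]
    have h2 : ∀ i : Fin m, ‖(Sqz.tau m k ε z - jn m k (up m k (Sqz.tau m k ε z)) 0)
        (Fin.castAdd k i)‖ ^ 2 = 0 := by
      intro i
      simp [jn]
    rw [Finset.sum_eq_zero fun i _ => h2 i, zero_add]
    refine Finset.sum_congr rfl fun i _ => ?_
    simp [jn]
  have h2 : dist (Sqz.tau m k ε z) (jn m k (up m k (Sqz.tau m k ε z)) 0) =
      ‖vp m k (Sqz.tau m k ε z)‖ :=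
    (sq_eq_sq₀ dist_nonneg (norm_nonneg _)).1 h1
  rw [h2]
  exact Sqz.tau_vp m k hε z

end Pool.Agent.L0h29.CS
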