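import Pool.Agent.L0h29.CS.Close
import Pool.Agent.N550.KH.One
import Pool.Agent.N550.KH.Cell

/-!
# Project CS: connected sums
-/

set_option autoImplicit false
set_option linter.unusedSectionVars false

open Set Filter Topology Metric Function MeasureTheory
open scoped Manifold ContDiff

noncomputable section

namespace Pool.Agent.L0h29.CS

open Pool.Agent.Y522 Pool.Agent.N550.KH Pool.Agent.N550.KH.One Close

/-- `c` is a smooth embedding of the open ball of radius two -/
def IsDisc (n : ℕ) {N : Type} [TopologicalSpace N] [ChartedSpace (E n) N] (c : E n → N) : Prop :=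
  InjOn c (ball 0 2) ∧ ∀ z ∈ ball (0 : E n) 2, LD n c z

/-- `M` is a connected sum of `N` and `P` -/
def ConnSum (n : ℕ) (M N P : Type) [TopologicalSpace M] [ChartedSpace (E n) M]
    [TopologicalSpace N] [ChartedSpace (E n) N] [TopologicalSpace P] [ChartedSpace (E n) P] :
    Prop :=
  ∃ (p : E n → N) (q : E n → P) (i : N → M) (j : P → M), IsDisc n p ∧ IsDisc n q ∧
    InjOn i (p '' closedBall 0 (1 / 2))ᶜ ∧ (∀ y ∈ (p '' closedBall 0 (1 / 2))ᶜ, LD n i y) ∧
    InjOn j (q '' closedBall 0 (1 / 2))ᶜ ∧ (∀ y ∈ (q '' closedBall 0 (1 / 2))ᶜ, LD n j y) ∧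
    i '' (p '' closedBall 0 (1 / 2))ᶜ ∪ j '' (q '' closedBall 0 (1 / 2))ᶜ = univ ∧
    ∀ y ∈ (p '' closedBall 0 (1 / 2))ᶜ, ∀ s ∈ (q '' closedBall 0 (1 / 2))ᶜ, i y = j s ↔
      ∃ z : E n, 1 / 2 < ‖z‖ ∧ ‖z‖ < 2 ∧ y = p z ∧ s = q ((‖z‖ ^ 2)⁻¹ • z)

theorem exists_connSum (n : ℕ) (hn : 0 < n) (M N : Type) [TopologicalSpace M] [CompactSpace M]
    [T2Space M] [ChartedSpace (E n) M] [IsManifold (𝓡 n) ∞ M] [TopologicalSpace N]
    [T2Space N] [ChartedSpace (E n) N] [IsManifold (𝓡 n) ∞ N]
    (G : M → N) (hG : Continuous G) (c : E n → N) (hc : Injective c) (hcl : ∀ z, LD n c z)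
    (hgood : ∀ y, y ∉ c '' closedBall 0 (1 / 2) →
      ∃ x, G x = y ∧ LD n G x ∧ ∀ x', G x' = y → x' = x) :
    ∃ (P : Type) (_ : TopologicalSpace P) (_ : ChartedSpace (E n) P), CompactSpace P ∧
      T2Space P ∧ IsManifold (𝓡 n) ∞ P ∧ ConnSum n M N P ∧
      (Bijective G → Nonempty (P ≃ₜ OnePoint (E n))) ∧
      (range c ≠ univ → ConnectedSpace M → ConnectedSpace P) := by
  classical
  obtain ⟨z₁, hz₁⟩ : ∃ z : E n, ‖z‖ = 1 := by
    refine ⟨EuclideanSpace.single ⟨0, hn⟩ (1 : ℝ), ?_⟩
    rw [PiLp.norm_single]; simp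
  have hgood' : ∀ z : E n, 1 / 2 < ‖z‖ → c z ∉ c '' closedBall 0 (1 / 2) := by
    rintro z hz ⟨w, hw, hwz⟩
    rw [hc hwz, mem_closedBall_zero_iff] at hw
    exact absurd hz (not_lt.2 hw)
  obtain ⟨x₀, hx₀, -, -⟩ := hgood (c z₁) (hgood' z₁ (by rw [hz₁]; norm_num))
  let i : N → M := fun y => if h : ∃ x, G x = y then h.choose else x₀
  have hi : ∀ y, y ∉ c '' closedBall 0 (1 / 2) → G (i y) = y := by
    intro y hy
    obtain ⟨x, hx, -, -⟩ := hgood y hy
    have h : ∃ x, G x = y := ⟨x, hx⟩
    show G (if h : ∃ x, G x = y then h.choose else x₀) = y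
    rw [dif_pos h]
    exact h.choose_spec
  have hu : ∀ x x', G x ∉ c '' closedBall 0 (1 / 2) → G x = G x' → x = x' := by
    intro x x' h1 h2
    obtain ⟨w, -, -, hw⟩ := hgood _ h1
    rw [hw x rfl, hw x' h2.symm]
  have hi' : ∀ x, G x ∉ c '' closedBall 0 (1 / 2) → i (G x) = x := fun x hx =>
    (hu x _ hx (hi _ hx).symm).symm
  have hGld : ∀ x, G x ∉ c '' closedBall 0 (1 / 2) → LD n G x := by
    intro x hx
    obtain ⟨w, -, hw1, hw⟩ := hgood _ hx
    rw [hw x rfl]; exact hw1
  have hccont : Continuous c := continuous_iff_continuousAt.2 fun z => (hcl z).continuousAt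
  have hcpt : IsCompact (c '' closedBall 0 (1 / 2)) := (isCompact_closedBall _ _).image hccont
  have hbo : IsOpen (c '' closedBall 0 (1 / 2))ᶜ := hcpt.isClosed.isOpen_compl
  let X : TopologicalSpace.Opens M := ⟨G ⁻¹' range c, (open_range hcl).preimage hG⟩
  have hXm : ∀ x : M, x ∈ X ↔ G x ∈ range c := fun x => Iff.rfl
  let κ : X → E n := fun x => linv c (G x)
  have hκ : ∀ x : X, c (κ x) = G x := by
    rintro ⟨x, z, hz⟩
    show c (linv c (G x)) = G x
    rw [← hz, linv_l hc]
  let k : E n → X := fun z => if h : G (i (c z)) ∈ range c then ⟨i (c z), h⟩ else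
    ⟨x₀, z₁, hx₀.symm⟩
  have hk : ∀ z : E n, 1 / 2 < ‖z‖ → ((k z : X) : M) = i (c z) := by
    intro z hz
    have h : G (i (c z)) ∈ range c := by
      rw [hi _ (hgood' z hz)]; exact ⟨z, rfl⟩
    show ((if h : G (i (c z)) ∈ range c then (⟨i (c z), h⟩ : X) else ⟨x₀, z₁, hx₀.symm⟩ : X) : M)
      = _
    rw [dif_pos h]
  have hκn : ∀ x : X, 1 / 2 < ‖κ x‖ → G x ∉ c '' closedBall 0 (1 / 2) := by
    intro x hx
    rw [← hκ]
    exact hgood' _ hx
  have hval : ∀ x : X, LD n (Subtype.val : X → M) x := fun x =>
    Pool.Agent.N550.SH.ld_opens X x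
  have hκc : Continuous κ := by
    rw [continuous_iff_continuousAt]
    intro x
    have h1 : LD n (linv c) (G x) := by
      rw [← hκ]
      exact linv_ld hc hcl _
    exact ContinuousAt.comp (g := linv c) (f := fun x : X => G x) h1.continuousAt
      (hG.comp continuous_subtype_val).continuousAt
  have hend : EndData κ k := by
    refine ⟨hκc, fun z hz => ?_, fun x hx => ?_, fun x hx => ?_, fun R => ?_⟩
    · apply hc
      rw [hκ, hk z hz, hi _ (hgood' z hz)]
    · apply Subtype.ext
      rw [hk _ hx, hκ, hi' _ (hκn x hx)]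
    · have h1 : LD n (linv c) (G x) := by
        rw [← hκ]
        exact linv_ld hc hcl _
      exact LD.comp_fun (g := linv c) (f := fun x : X => G x) h1
        (LD.comp_fun (g := G) (f := fun x : X => (x : M)) (hGld _ (hκn x hx)) (hval x))
    · rw [Topology.IsEmbedding.subtypeVal.isCompact_iff]
      have h1 : (Subtype.val : X → M) '' {x | ‖κ x‖ ≤ R} = G ⁻¹' (c '' closedBall 0 R) := by
        ext x
        constructor
        · rintro ⟨x, hx, rfl⟩
          exact ⟨κ x, mem_closedBall_zero_iff.2 hx, hκ x⟩
        · rintro ⟨z, hz, hzx⟩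
          refine ⟨⟨x, z, hzx⟩, ?_, rfl⟩
          show ‖linv c (G x)‖ ≤ R
          rw [← hzx, linv_l hc]
          exact mem_closedBall_zero_iff.1 hz
      rw [h1]
      exact (((isCompact_closedBall _ _).image hccont).isClosed.preimage hG).isCompact
  letI csP := cs hend
  have hmf := isManifold hend
  have hlc : LocallyCompactSpace X := ChartedSpace.locallyCompactSpace (E n) X
  let q : E n → OnePoint X := qf k
  let j : OnePoint X → M := fun s => s.elim x₀ fun x => (x : M)
  have hjc : ∀ x : X, j (x : OnePoint X) = x := fun x => rfl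
  have hq0 : ∀ z : E n, 1 / 2 < ‖z‖ → q (inv0 z) = ((k z : X) : OnePoint X) := by
    intro z hz
    have h0 : inv0 z ≠ 0 := by
      intro hcon
      rw [inv0_eq_zero] at hcon
      rw [hcon, norm_zero] at hz
      norm_num at hz
    show qf k (inv0 z) = _
    rw [qf_ne k h0, inv0_inv0]
  have hcoeN : ∀ x : X, (x : OnePoint X) ∉ q '' closedBall 0 (1 / 2) ↔ ‖κ x‖ < 2 := by
    intro x
    constructor
    · intro hx
      by_contra hcon
      rw [not_lt] at hcon
      apply hx
      refine ⟨inv0 (κ x), ?_, ?_⟩
      · rw [mem_closedBall_zero_iff, norm_inv0]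
        have := inv_anti₀ (by norm_num : (0 : ℝ) < 2) hcon
        norm_num at this ⊢
        exact this
      · rw [hq0 _ (by linarith), hend.kr x (by linarith)]
    · rintro hx ⟨w, hw, hwx⟩
      rw [mem_closedBall_zero_iff] at hw
      by_cases h0 : w = 0
      · have h1 : qf k w = (x : OnePoint X) := hwx
        rw [h0, qf_zero] at h1
        exact OnePoint.infty_ne_coe _ h1
      · have h1 : qf k w = (x : OnePoint X) := hwx
        rw [qf_ne k h0] at h1
        have h2 := OnePoint.coe_injective h1
        have h3 : (2 : ℝ) ≤ ‖inv0 w‖ := by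
          rw [norm_inv0]
          have := inv_anti₀ (norm_pos_iff.2 h0) hw
          norm_num at this ⊢
          exact this
        rw [← h2, hend.kl _ (by linarith)] at hx
        linarith
  have hinfN : (OnePoint.infty : OnePoint X) ∈ q '' closedBall 0 (1 / 2) :=
    ⟨0, by rw [mem_closedBall_zero_iff, norm_zero]; norm_num, qf_zero k⟩
  refine ⟨OnePoint X, inferInstance, csP, inferInstance, inferInstance, hmf,
    ⟨c, q, i, j, ⟨hc.injOn, fun z _ => hcl z⟩, ⟨?_, fun z hz => ?_⟩, ?_, ?_, ?_, ?_, ?_, ?_⟩,
    ?_, ?_⟩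
  · -- injectivity of `q`
    intro w hw w' hw' hww
    have h1 := (cinf hend).right_inv hw
    have h2 := (cinf hend).right_inv hw'
    rw [← h1, ← h2]
    exact congrArg (cinf hend) hww
  · exact ld_qf hend (mem_ball_zero_iff.1 hz)
  · -- injectivity of `i`
    intro y hy y' hy' hyy
    rw [← hi y hy, ← hi y' hy', hyy]
  · -- `i` is a local diffeomorphism
    intro y hy
    have h1 : IsOpen (G ⁻¹' (c '' closedBall 0 (1 / 2))ᶜ) := hbo.preimage hG
    have h2 := LD.inverse (n := n) (k := G) (g := i) h1 (fun x hx => hGld x hx)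
      (fun x hx => hi' x hx) (x := i y) (by show G (i y) ∉ _; rw [hi y hy]; exact hy)
    rw [hi y hy] at h2
    exact h2
  · -- injectivity of `j`
    intro s hs s' hs' hss
    induction s using OnePoint.rec with
    | infty => exact absurd hinfN hs
    | coe x =>
      induction s' using OnePoint.rec with
      | infty => exact absurd hinfN hs'
      | coe x' =>
        have : x = x' := Subtype.ext hss
        rw [this]
  · -- `j` is a local diffeomorphism
    intro s hs
    induction s using OnePoint.rec with
    | infty => exact absurd hinfN hs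
    | coe x =>
      have h1 : LD n (fun s : OnePoint X => s.elim x fun y => y) (x : OnePoint X) := by
        refine LD.inverse (n := n) (k := ((↑) : X → OnePoint X)) isOpen_univ
          (fun y _ => ld_coe hend y) (fun y _ => rfl) (mem_univ x)
      have h2 : LD n (fun s : OnePoint X => ((s.elim x fun y => y : X) : M)) (x : OnePoint X) :=
        LD.comp_fun (g := (Subtype.val : X → M)) (hval _) h1
      refine LD.congr h2 ?_
      filter_upwards [OnePoint.isOpen_range_coe.mem_nhds ⟨x, rfl⟩] with s hs
      obtain ⟨y, rfl⟩ := hs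
      rfl
  · -- covering
    rw [eq_univ_iff_forall]
    intro x
    by_cases hx : G x ∈ c '' closedBall 0 (1 / 2)
    · right
      have hxX : G x ∈ range c := image_subset_range _ _ hx
      refine ⟨((⟨x, hxX⟩ : X) : OnePoint X), ?_, rfl⟩
      rw [mem_compl_iff, hcoeN]
      obtain ⟨z, hz, hzx⟩ := hx
      show ‖linv c (G x)‖ < 2
      rw [← hzx, linv_l hc]
      have := mem_closedBall_zero_iff.1 hz
      linarith
    · left
      exact ⟨G x, hx, hi' x hx⟩
  · -- gluing
    intro y hy s hs
    constructor
    · intro hys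
      induction s using OnePoint.rec with
      | infty => exact absurd hinfN hs
      | coe x =>
        rw [hjc] at hys
        have h1 : G x = y := by rw [← hys, hi y hy]
        have h2 : ‖κ x‖ < 2 := (hcoeN x).1 hs
        have h3 : 1 / 2 < ‖κ x‖ := by
          by_contra hcon
          apply hy
          refine ⟨κ x, mem_closedBall_zero_iff.2 (not_lt.1 hcon), ?_⟩
          rw [hκ, h1]
        refine ⟨κ x, h3, h2, by rw [hκ, h1], ?_⟩
        show (x : OnePoint X) = q (inv0 (κ x))
        rw [hq0 _ h3, hend.kr x h3]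
    · rintro ⟨z, hz1, hz2, rfl, rfl⟩
      show i (c z) = j (q (inv0 z))
      rw [hq0 z hz1, hjc, hk z hz1]
  · -- the case of a bijection
    intro hb
    have hXr : ∀ x : X, G x ∈ range c := fun x => x.2
    let eG : M ≃ₜ N := by
      exact Continuous.homeoOfEquivCompactToT2 (f := Equiv.ofBijective G hb) hG
    have heG : ∀ x, eG x = G x := fun _ => rfl
    have hinv : ∀ z, G (eG.symm (c z)) = c z := fun z => eG.apply_symm_apply (c z)
    let e1 : X ≃ₜ E n :=
      { toFun := κ
        invFun := fun z => ⟨eG.symm (c z), by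
          show G (eG.symm (c z)) ∈ range c
          rw [hinv]; exact ⟨z, rfl⟩⟩
        left_inv := by
          intro x
          apply Subtype.ext
          show eG.symm (c (κ x)) = x
          rw [hκ]
          exact eG.symm_apply_apply _
        right_inv := by
          intro z
          apply hc
          rw [hκ]
          exact hinv z
        continuous_toFun := hκc
        continuous_invFun := by
          exact (eG.symm.continuous.comp hccont).subtype_mk _ }
    exact ⟨e1.onePointCongr⟩
  · -- connectedness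
    intro hr hM
    obtain ⟨y, hy⟩ : ∃ y, y ∉ range c := by
      by_contra hcon
      push Not at hcon
      exact hr (eq_univ_of_forall hcon)
    have hyb : y ∉ c '' closedBall 0 (1 / 2) := fun hcon => hy (image_subset_range _ _ hcon)
    let g : M → OnePoint X := fun x => if h : G x ∈ range c then ((⟨x, h⟩ : X) : OnePoint X) else
      OnePoint.infty
    have hgi : ∀ x : X, g x = (x : OnePoint X) := by
      intro x
      have h : G x ∈ range c := x.2
      show (if h : G x ∈ range c then ((⟨x, h⟩ : X) : OnePoint X) else OnePoint.infty) = _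
      rw [dif_pos h]
    have hgo : ∀ x, G x ∉ range c → g x = OnePoint.infty := fun x hx => dif_neg hx
    have hgc : Continuous g := by
      rw [continuous_def]
      intro V hV
      by_cases hVi : OnePoint.infty ∈ V
      · rw [OnePoint.isOpen_iff_of_mem hVi] at hV
        have h1 : (g ⁻¹' V)ᶜ = (Subtype.val : X → M) '' (((↑) : X → OnePoint X) ⁻¹' V)ᶜ := by
          ext x
          constructor
          · intro hx
            by_cases hxr : G x ∈ range c
            · refine ⟨⟨x, hxr⟩, ?_, rfl⟩
              intro hcon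
              apply hx
              show g x ∈ V
              rw [hgi ⟨x, hxr⟩]
              exact hcon
            · exact absurd (by show g x ∈ V; rw [hgo x hxr]; exact hVi) hx
          · rintro ⟨x', hx', rfl⟩ hcon
            apply hx'
            show (x' : OnePoint X) ∈ V
            rw [← hgi]
            exact hcon
        have h2 : IsClosed (g ⁻¹' V)ᶜ := by
          rw [h1]
          exact (hV.2.image continuous_subtype_val).isClosed
        have h3 := h2.isOpen_compl
        rwa [compl_compl] at h3
      · rw [OnePoint.isOpen_iff_of_notMem hVi] at hV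
        have h1 : g ⁻¹' V = (Subtype.val : X → M) '' (((↑) : X → OnePoint X) ⁻¹' V) := by
          ext x
          constructor
          · intro hx
            by_cases hxr : G x ∈ range c
            · refine ⟨⟨x, hxr⟩, ?_, rfl⟩
              show ((⟨x, hxr⟩ : X) : OnePoint X) ∈ V
              rw [← hgi ⟨x, hxr⟩]
              exact hx
            · have h2 : g x ∈ V := hx
              rw [hgo x hxr] at h2
              exact absurd h2 hVi
          · rintro ⟨x', hx', rfl⟩
            show g x' ∈ V
            rw [hgi]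
            exact hx'
        rw [h1]
        exact X.isOpen.isOpenMap_subtype_val _ hV
    have hgs : Surjective g := by
      intro s
      induction s using OnePoint.rec with
      | infty => exact ⟨i y, hgo _ (by rw [hi y hyb]; exact hy)⟩
      | coe x => exact ⟨x, hgi x⟩
    exact hgs.connectedSpace hgc

end Pool.Agent.L0h29.CS
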